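import Pool.Agent.H47.S1.Op

/-!
# The trace class norm through the positive square root
-/

open scoped InnerProductSpace ENNReal

namespace Pool.Agent.H47.S1

variable {β : Type*} {H : Type*} [NormedAddCommGroup H] [InnerProductSpace ℂ H] [CompleteSpace H]

theorem abs_unique {T A : H →L[ℂ] H} (hA : A.IsPositive)
    (h : ∀ x y, ⟪A x, A y⟫_ℂ = ⟪T x, T y⟫_ℂ) : CFC.abs T = A := by
  have h0 : 0 ≤ A := (ContinuousLinearMap.nonneg_iff_isPositive A).mpr hA
  have h1 : A * A = star T * T := by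
    ext x
    apply ext_inner_left ℂ
    intro y
    rw [mul_apply_eq_comp, mul_apply_eq_comp, ContinuousLinearMap.star_eq_adjoint,
      ContinuousLinearMap.adjoint_inner_right, ← hA.inner_left_eq_inner_right]
    exact h y x
  rw [CFC.abs]
  exact CFC.sqrt_unique h1 h0

theorem traceNorm_eq (e : HilbertBasis β ℂ H) {T A : H →L[ℂ] H} (hA : A.IsPositive)
    (h : ∀ x y, ⟪A x, A y⟫_ℂ = ⟪T x, T y⟫_ℂ) {r : ℝ}
    (hr : HasSum (fun k => (⟪e k, A (e k)⟫_ℂ).re) r) : traceNorm e T = ENNReal.ofReal r := by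
  have h0 : ∀ k, 0 ≤ (⟪e k, A (e k)⟫_ℂ).re := fun k => hA.re_inner_nonneg_right _
  rw [traceNorm, abs_unique hA h, ← hr.tsum_eq, ENNReal.ofReal_tsum_of_nonneg h0 hr.summable]

end Pool.Agent.H47.S1
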