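import Pool.Agent.H47.S1.Tn

/-!
# Minimisers of `ζ ↦ E tr √((F+ζ)*(F+ζ)+ε²) - κ Im tr ζ` and the growth lower bound
-/

open Matrix
open scoped ComplexOrder

namespace Pool.Agent.H47.S1

variable {ι : Type*} [Fintype ι] [DecidableEq ι]
variable {Ω : Type*} [Fintype Ω] {ε : ℝ} (hε : 0 < ε)

/-- The average of `Φ (F + ζ)`. -/
noncomputable def BB (μ : Ω → ℝ) (F : Ω → Matrix ι ι ℂ) (ζ : Matrix ι ι ℂ) : ℝ :=
  ∑ w, μ w * Phi hε (F w + ζ)

/-- The functional. -/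
noncomputable def JJ (κ : ℝ) (μ : Ω → ℝ) (F : Ω → Matrix ι ι ℂ) (ζ : Matrix ι ι ℂ) : ℝ :=
  BB hε μ F ζ - κ * (trace ζ).im

omit [DecidableEq ι] in
theorem im_trace_herm {A : Matrix ι ι ℂ} (hA : Aᴴ = A) : (trace A).im = 0 := by
  have : trace A = star (trace A) := by rw [← trace_conjTranspose, hA]
  have h2 := congrArg Complex.im this
  rw [Complex.star_def, Complex.conj_im] at h2
  linarith

theorem continuous_Phi : Continuous (Phi (ι := ι) hε) := by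
  rw [continuous_iff_continuousAt]
  intro A
  rw [ContinuousAt, tendsto_iff_dist_tendsto_zero]
  have h1 : Continuous (fun B : Matrix ι ι ℂ => ∑ j, ∑ i, ‖(B - A) i j‖) := by
    refine continuous_finsetSum _ fun j _ => continuous_finsetSum _ fun i _ => ?_
    apply Continuous.norm
    exact (continuous_id.sub continuous_const).matrix_elem i j
  have h2 := h1.tendsto A
  have h3 : ∑ j, ∑ i, ‖(A - A) i j‖ = 0 := by simp
  rw [h3] at h2
  refine squeeze_zero (fun B => dist_nonneg) (fun B => ?_) h2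
  rw [Real.dist_eq, abs_le]
  constructor
  · have := (Phi_sub_le hε A B).trans ((tn_sub_comm A B).le.trans (tn_le_entries (B - A)))
    linarith
  · exact (Phi_sub_le hε B A).trans (tn_le_entries (B - A))

theorem continuous_JJ (κ : ℝ) (μ : Ω → ℝ) (F : Ω → Matrix ι ι ℂ) :
    Continuous (JJ hε κ μ F) := by
  unfold JJ BB
  refine Continuous.sub ?_ ?_
  · refine continuous_finsetSum _ fun w _ => ?_
    exact continuous_const.mul ((continuous_Phi hε).comp (continuous_const.add continuous_id))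
  · exact continuous_const.mul (Complex.continuous_im.comp (continuous_id.matrix_trace))

section
variable {κ : ℝ} {μ : Ω → ℝ} {F : Ω → Matrix ι ι ℂ}

omit [DecidableEq ι] in
theorem trace_im_avg (hμ1 : ∑ w, μ w = 1) (hF : ∀ w, (F w)ᴴ = F w) (ζ : Matrix ι ι ℂ) :
    (trace ζ).im = ∑ w, μ w * (trace (F w + ζ)).im := by
  have : ∀ w, (trace (F w + ζ)).im = (trace ζ).im := by
    intro w
    rw [trace_add, Complex.add_im, im_trace_herm (hF w), zero_add]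
  simp only [this]
  rw [← Finset.sum_mul, hμ1, one_mul]

theorem abs_im_le_BB (hμ : ∀ w, 0 ≤ μ w) (hμ1 : ∑ w, μ w = 1) (hF : ∀ w, (F w)ᴴ = F w)
    (ζ : Matrix ι ι ℂ) : |(trace ζ).im| ≤ BB hε μ F ζ := by
  rw [trace_im_avg hμ1 hF ζ]
  refine (Finset.abs_sum_le_sum_abs _ _).trans ?_
  refine Finset.sum_le_sum fun w _ => ?_
  rw [abs_mul, abs_of_nonneg (hμ w)]
  exact mul_le_mul_of_nonneg_left ((im_trace_le_tn _).trans (tn_le_Phi hε _)) (hμ w)

theorem BB_le (hκ : 0 ≤ κ) (hμ : ∀ w, 0 ≤ μ w) (hμ1 : ∑ w, μ w = 1)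
    (hF : ∀ w, (F w)ᴴ = F w) (ζ : Matrix ι ι ℂ) :
    (1 - κ) * BB hε μ F ζ ≤ JJ hε κ μ F ζ := by
  have := (abs_le.mp (abs_im_le_BB hε hμ hμ1 hF ζ)).2
  unfold JJ
  nlinarith

theorem BB_nonneg (hμ : ∀ w, 0 ≤ μ w) (ζ : Matrix ι ι ℂ) : 0 ≤ BB hε μ F ζ :=
  Finset.sum_nonneg fun w _ => mul_nonneg (hμ w) (Phi_nonneg hε _)

theorem entry_le_BB (hμ : ∀ w, 0 ≤ μ w) (hμ1 : ∑ w, μ w = 1) (ζ : Matrix ι ι ℂ) (i j : ι) :
    ‖ζ i j‖ ≤ BB hε μ F ζ + ∑ w, μ w * ‖F w i j‖ := by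
  have h1 : ‖ζ i j‖ = ∑ w, μ w * ‖ζ i j‖ := by rw [← Finset.sum_mul, hμ1, one_mul]
  rw [h1, BB, ← Finset.sum_add_distrib]
  refine Finset.sum_le_sum fun w _ => ?_
  rw [← mul_add]
  apply mul_le_mul_of_nonneg_left _ (hμ w)
  have h2 : ζ i j = (F w + ζ) i j - F w i j := by rw [Matrix.add_apply]; ring
  calc ‖ζ i j‖ = ‖(F w + ζ) i j - F w i j‖ := by rw [← h2]
    _ ≤ ‖(F w + ζ) i j‖ + ‖F w i j‖ := norm_sub_le _ _
    _ ≤ Phi hε (F w + ζ) + ‖F w i j‖ := by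
        gcongr
        exact (entry_le_tn _ i j).trans (tn_le_Phi hε _)

theorem exists_min (hκ : 0 ≤ κ) (hκ1 : κ < 1) (hμ : ∀ w, 0 ≤ μ w) (hμ1 : ∑ w, μ w = 1)
    (hF : ∀ w, (F w)ᴴ = F w) : ∃ ζ, ∀ ζ', JJ hε κ μ F ζ ≤ JJ hε κ μ F ζ' := by
  obtain ⟨R, hR⟩ : ∃ R : ℝ, R = JJ hε κ μ F 0 / (1 - κ) + ∑ w, μ w * ∑ i, ∑ j, ‖F w i j‖ :=
    ⟨_, rfl⟩
  have h1κ : 0 < 1 - κ := by linarith
  have hJ0 : 0 ≤ JJ hε κ μ F 0 :=
    (mul_nonneg h1κ.le (BB_nonneg hε hμ 0)).trans (BB_le hε hκ hμ hμ1 hF 0)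
  have hsum : 0 ≤ ∑ w, μ w * ∑ i, ∑ j, ‖F w i j‖ :=
    Finset.sum_nonneg fun w _ => mul_nonneg (hμ w)
      (Finset.sum_nonneg fun i _ => Finset.sum_nonneg fun j _ => norm_nonneg _)
  have hR0 : 0 ≤ R := by rw [hR]; positivity
  obtain ⟨K, hK⟩ : ∃ K : Set (Matrix ι ι ℂ),
      K = Set.pi Set.univ fun _ : ι => Set.pi Set.univ fun _ : ι => Metric.closedBall (0 : ℂ) R :=
    ⟨_, rfl⟩
  have hKc : IsCompact K := by
    rw [hK]
    exact isCompact_univ_pi fun _ => isCompact_univ_pi fun _ => isCompact_closedBall _ _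
  have hmem : ∀ ζ : Matrix ι ι ℂ, ζ ∈ K ↔ ∀ i j, ‖ζ i j‖ ≤ R := by
    intro ζ
    rw [hK]
    constructor
    · intro h i j
      have := h i (Set.mem_univ i) j (Set.mem_univ j)
      exact mem_closedBall_zero_iff.mp this
    · intro h i _ j _
      exact mem_closedBall_zero_iff.mpr (h i j)
  have h0K : (0 : Matrix ι ι ℂ) ∈ K := by
    rw [hmem]
    intro i j
    simpa using hR0
  obtain ⟨ζ, hζK, hζ⟩ := hKc.exists_isMinOn ⟨0, h0K⟩ (continuous_JJ hε κ μ F).continuousOn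
  refine ⟨ζ, fun ζ' => ?_⟩
  by_cases h : ζ' ∈ K
  · exact hζ h
  · rw [hmem] at h
    push Not at h
    obtain ⟨i, j, hij⟩ := h
    have h1 : JJ hε κ μ F ζ ≤ JJ hε κ μ F 0 := hζ h0K
    refine h1.trans ?_
    have h2 := entry_le_BB (F := F) hε hμ hμ1 ζ' i j
    have h3 := BB_le (κ := κ) hε hκ hμ hμ1 hF ζ'
    have h4 : ∑ w, μ w * ‖F w i j‖ ≤ ∑ w, μ w * ∑ i, ∑ j, ‖F w i j‖ := by
      refine Finset.sum_le_sum fun w _ => ?_
      apply mul_le_mul_of_nonneg_left _ (hμ w)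
      calc ‖F w i j‖ ≤ ∑ j, ‖F w i j‖ :=
            Finset.single_le_sum (f := fun j => ‖F w i j‖) (fun _ _ => norm_nonneg _)
              (Finset.mem_univ j)
        _ ≤ ∑ i, ∑ j, ‖F w i j‖ :=
            Finset.single_le_sum (f := fun i => ∑ j, ‖F w i j‖)
              (fun _ _ => Finset.sum_nonneg fun _ _ => norm_nonneg _) (Finset.mem_univ i)
    have h5 : JJ hε κ μ F 0 / (1 - κ) ≤ BB hε μ F ζ' := by
      rw [hR] at hij
      linarith
    rw [div_le_iff₀ h1κ] at h5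
    linarith

theorem Phi_add_le (A Z : Matrix ι ι ℂ) (t : ℝ) :
    Phi hε (A + (t : ℂ) • Z) ≤ Phi hε A + t * rt ((Uo hε A)ᴴ * Z) +
      t ^ 2 * (rt ((S hε A)⁻¹ * (Zᴴ * Z)) / 2) := by
  have h := mm hε (S_posDef hε A) (A + (t : ℂ) • Z)
  have e : P2 ε (A + (t : ℂ) • Z) = P2 ε A + (t : ℂ) • (Aᴴ * Z) + (t : ℂ) • (Zᴴ * A) +
      ((t ^ 2 : ℝ) : ℂ) • (Zᴴ * Z) := by
    rw [P2, P2, conjTranspose_add, conjTranspose_smul, Complex.star_def, Complex.conj_ofReal]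
    simp only [Matrix.add_mul, Matrix.mul_add, Matrix.smul_mul, Matrix.mul_smul, smul_add,
      smul_smul]
    rw [pow_two t, Complex.ofReal_mul t t]
    abel
  have e2 : rt ((S hε A)⁻¹ * (Aᴴ * Z)) = rt ((Uo hε A)ᴴ * Z) := by
    rw [Uo, conjTranspose_mul, S_inv_herm, Matrix.mul_assoc]
  have e3 : rt ((S hε A)⁻¹ * (Zᴴ * A)) = rt ((Uo hε A)ᴴ * Z) := by
    rw [← e2, ← rt_conj, conjTranspose_mul, conjTranspose_mul, conjTranspose_conjTranspose,
      S_inv_herm, rt_mul_comm]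
  rw [e, Matrix.mul_add, Matrix.mul_add, Matrix.mul_add, rt_add, rt_add, rt_add, Matrix.mul_smul,
    Matrix.mul_smul, Matrix.mul_smul, rt_smul, rt_smul, rt_smul, e2, e3, inv_P2_inv] at h
  have e4 : rt (S hε A) = Phi hε A := rfl
  rw [e4] at h
  linarith

theorem lin_zero {a b : ℝ} (h : ∀ t : ℝ, 0 ≤ t * a + t ^ 2 * b) : a = 0 := by
  by_contra ha
  have hb : 0 < |b| + 1 := by positivity
  have h1 := h (-(a / (|b| + 1)))
  have h2 : b < |b| + 1 := by linarith [le_abs_self b]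
  have h3 : -(a / (|b| + 1)) * a + (-(a / (|b| + 1))) ^ 2 * b =
      -(a ^ 2 / (|b| + 1) ^ 2) * ((|b| + 1) - b) := by
    field_simp
    ring
  rw [h3] at h1
  have h4 : 0 < a ^ 2 / (|b| + 1) ^ 2 := by positivity
  nlinarith

theorem stationary {ζ : Matrix ι ι ℂ} (hζ : ∀ ζ', JJ hε κ μ F ζ ≤ JJ hε κ μ F ζ')
    (hμ : ∀ w, 0 ≤ μ w) (Z : Matrix ι ι ℂ) :
    ∑ w, μ w * rt ((Uo hε (F w + ζ))ᴴ * Z) = κ * (trace Z).im := by
  have h : ∑ w, μ w * rt ((Uo hε (F w + ζ))ᴴ * Z) - κ * (trace Z).im = 0 := by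
    apply lin_zero (b := ∑ w, μ w * (rt ((S hε (F w + ζ))⁻¹ * (Zᴴ * Z)) / 2))
    intro t
    have h1 := hζ (ζ + (t : ℂ) • Z)
    have h2 : BB hε μ F (ζ + (t : ℂ) • Z) ≤ BB hε μ F ζ +
        t * ∑ w, μ w * rt ((Uo hε (F w + ζ))ᴴ * Z) +
        t ^ 2 * ∑ w, μ w * (rt ((S hε (F w + ζ))⁻¹ * (Zᴴ * Z)) / 2) := by
      rw [BB, BB, Finset.mul_sum, Finset.mul_sum, ← Finset.sum_add_distrib,
        ← Finset.sum_add_distrib]
      refine Finset.sum_le_sum fun w _ => ?_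
      have := mul_le_mul_of_nonneg_left (Phi_add_le hε (F w + ζ) Z t) (hμ w)
      rw [add_assoc (F w) ζ] at this
      calc _ ≤ _ := this
        _ = _ := by ring
    have h3 : (trace (ζ + (t : ℂ) • Z)).im = (trace ζ).im + t * (trace Z).im := by
      rw [trace_add, trace_smul]
      simp
    unfold JJ at h1
    rw [h3] at h1
    nlinarith
  linarith

/-- The growth lower bound. -/
theorem growth {ζ : Matrix ι ι ℂ} (hζ : ∀ ζ', JJ hε κ μ F ζ ≤ JJ hε κ μ F ζ')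
    (hμ : ∀ w, 0 ≤ μ w) {W : Matrix ι ι ℂ} (hW : Wᴴ = W) (hW2 : W * W = 1)
    {c l : ℝ} (hcl : c ^ 2 + l ^ 2 = 1) (Z : Matrix ι ι ℂ) :
    JJ hε κ μ F ζ + κ * l * rt (W * Z) - (1 - c) * (BB hε μ F ζ + κ * (trace Z).im) ≤
      JJ hε κ μ F (ζ + Z) := by
  obtain ⟨T, hT⟩ : ∃ T : Matrix ι ι ℂ, T = (c : ℂ) • (1 : Matrix ι ι ℂ) +
      (Complex.I * (l : ℂ)) • W := ⟨_, rfl⟩
  have hTT : T * Tᴴ = 1 := by
    rw [hT, conjTranspose_add, conjTranspose_smul, conjTranspose_smul, hW, conjTranspose_one]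
    simp only [Complex.star_def, map_mul, Complex.conj_I, Complex.conj_ofReal, Matrix.mul_add,
      Matrix.add_mul, Matrix.smul_mul, Matrix.mul_smul, Matrix.one_mul, Matrix.mul_one, smul_add,
      smul_smul, hW2]
    have e1 : (c : ℂ) * (c : ℂ) + (-Complex.I * (l : ℂ)) * (Complex.I * (l : ℂ)) = 1 := by
      have : (-Complex.I * (l : ℂ)) * (Complex.I * (l : ℂ)) = (l : ℂ) * (l : ℂ) := by
        ring_nf
        rw [Complex.I_sq]
        ring
      rw [this]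
      have h2 : ((c ^ 2 + l ^ 2 : ℝ) : ℂ) = 1 := by rw [hcl]; simp
      push_cast at h2
      rw [← h2]
      ring
    have e2 : (c : ℂ) * (Complex.I * (l : ℂ)) + (-Complex.I * (l : ℂ)) * (c : ℂ) = 0 := by ring
    calc _ = ((c : ℂ) * (c : ℂ) + (-Complex.I * (l : ℂ)) * (Complex.I * (l : ℂ))) •
          (1 : Matrix ι ι ℂ) + ((c : ℂ) * (Complex.I * (l : ℂ)) +
            (-Complex.I * (l : ℂ)) * (c : ℂ)) • W := by
          module
      _ = 1 := by rw [e1, e2]; simp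
  have hpt : ∀ w, c * Phi hε (F w + ζ) + rt ((Uo hε (F w + ζ))ᴴ * (Z * T)) ≤
      Phi hε (F w + (ζ + Z)) := by
    intro w
    obtain ⟨A, hA⟩ : ∃ A, A = F w + ζ := ⟨_, rfl⟩
    rw [← add_assoc, ← hA]
    have h1 := dual hε (Uo hε A * Tᴴ) (Vo hε A * Tᴴ) (A + Z) (by
      have : (Uo hε A * Tᴴ)ᴴ * (Uo hε A * Tᴴ) + (Vo hε A * Tᴴ)ᴴ * (Vo hε A * Tᴴ) =
          T * ((Uo hε A)ᴴ * Uo hε A + (Vo hε A)ᴴ * Vo hε A) * Tᴴ := by
        simp only [conjTranspose_mul, conjTranspose_conjTranspose, Matrix.mul_add, Matrix.add_mul,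
          Matrix.mul_assoc]
      rw [this, Uo_Vo, Matrix.mul_one, hTT, sub_self]
      exact Matrix.PosSemidef.zero)
    have e1 : rt ((Uo hε A * Tᴴ)ᴴ * (A + Z)) + ε * rt (Vo hε A * Tᴴ) =
        rt (T * S hε A) + rt ((Uo hε A)ᴴ * (Z * T)) := by
      have a1 : rt ((Uo hε A * Tᴴ)ᴴ * (A + Z)) = rt (T * ((Uo hε A)ᴴ * A)) +
          rt ((Uo hε A)ᴴ * (Z * T)) := by
        rw [Matrix.mul_add, rt_add, conjTranspose_mul, conjTranspose_conjTranspose,
          Matrix.mul_assoc]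
        congr 1
        rw [Matrix.mul_assoc, rt_mul_comm, Matrix.mul_assoc]
      have a2 : ε * rt (Vo hε A * Tᴴ) = rt (T * ((ε : ℂ) • (Vo hε A)ᴴ)) := by
        rw [Matrix.mul_smul, rt_smul, ← rt_conj (Vo hε A * Tᴴ), conjTranspose_mul,
          conjTranspose_conjTranspose]
      rw [a1, a2, ← attain hε A, Matrix.mul_add, rt_add]
      ring
    have e2 : rt (T * S hε A) = c * Phi hε A := by
      have hWS : (trace (W * S hε A)).im = 0 := by
        have : (trace (W * S hε A)) = star (trace (W * S hε A)) := by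
          rw [← trace_conjTranspose, conjTranspose_mul, hW, (S_posDef hε A).isHermitian,
            trace_mul_comm]
        have h2 := congrArg Complex.im this
        rw [Complex.star_def, Complex.conj_im] at h2
        linarith
      rw [hT, Matrix.add_mul, Matrix.smul_mul, Matrix.smul_mul, Matrix.one_mul, rt_add, rt_smul]
      have : rt ((Complex.I * (l : ℂ)) • (W * S hε A)) = 0 := by
        rw [rt, trace_smul, smul_eq_mul, mul_assoc, Complex.I_mul_re, Complex.im_ofReal_mul, hWS]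
        simp
      rw [this, add_zero]
      rfl
    rw [e1, e2] at h1
    exact h1
  have hsum : c * BB hε μ F ζ + κ * (trace (Z * T)).im ≤ BB hε μ F (ζ + Z) := by
    rw [← stationary hε hζ hμ (Z * T), BB, BB, Finset.mul_sum, ← Finset.sum_add_distrib]
    refine Finset.sum_le_sum fun w _ => ?_
    calc c * (μ w * Phi hε (F w + ζ)) + μ w * rt ((Uo hε (F w + ζ))ᴴ * (Z * T))
        = μ w * (c * Phi hε (F w + ζ) + rt ((Uo hε (F w + ζ))ᴴ * (Z * T))) := by ring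
      _ ≤ μ w * Phi hε (F w + (ζ + Z)) := mul_le_mul_of_nonneg_left (hpt w) (hμ w)
  have e3 : (trace (Z * T)).im = c * (trace Z).im + l * rt (W * Z) := by
    rw [hT, Matrix.mul_add, Matrix.mul_smul, Matrix.mul_smul, Matrix.mul_one, trace_add,
      trace_smul, trace_smul, rt, trace_mul_comm W Z]
    simp
  rw [e3] at hsum
  have e4 : (trace (ζ + Z)).im = (trace ζ).im + (trace Z).im := by
    rw [trace_add, Complex.add_im]
  unfold JJ
  rw [e4]
  nlinarith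

end

end Pool.Agent.H47.S1
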