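import Pool.Agent.H47.S1.Cert

/-!
# The chain of robust locations on a finite abelian group
-/

open Matrix
open scoped ComplexOrder

namespace Pool.Agent.H47.S1

/-! ### The kernels -/

section kernel

variable {G : Type*} [AddCommGroup G] [DecidableEq G]

/-- The law of `∑_{i<j} δ_i e_i`, `δ_i` independent uniform in `{0,1}`. -/
noncomputable def pk (e : ℕ → G) : ℕ → G → ℝ
  | 0 => fun w => if w = 0 then 1 else 0
  | j + 1 => fun w => (pk e j w + pk e j (w - e j)) / 2

theorem pk_nonneg (e : ℕ → G) (j : ℕ) (w : G) : 0 ≤ pk e j w := by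
  induction j generalizing w with
  | zero => simp only [pk]; split_ifs <;> norm_num
  | succ j ih =>
    simp only [pk]
    have h1 := ih w
    have h2 := ih (w - e j)
    linarith

theorem sum_pk_mul [Fintype G] (e : ℕ → G) (j : ℕ) (g : G → ℝ) :
    ∑ w, pk e (j + 1) w * g w = ((∑ w, pk e j w * g w) + ∑ w, pk e j w * g (e j + w)) / 2 := by
  have h1 : ∑ w, pk e j (w - e j) * g w = ∑ w, pk e j w * g (e j + w) := by
    rw [← Equiv.sum_comp (Equiv.addLeft (e j))]
    simp
  rw [← h1, ← Finset.sum_add_distrib, Finset.sum_div]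
  refine Finset.sum_congr rfl fun w _ => ?_
  simp only [pk]
  ring

theorem sum_pk [Fintype G] (e : ℕ → G) (j : ℕ) : ∑ w, pk e j w = 1 := by
  induction j with
  | zero => simp [pk]
  | succ j ih =>
    have := sum_pk_mul e j (fun _ => 1)
    simp only [mul_one] at this
    rw [this, ih]
    norm_num

theorem pk_supp (e : ℕ → G) (j : ℕ) (w : G) (h : pk e j w ≠ 0) :
    ∃ I : Finset ℕ, I ⊆ Finset.range j ∧ w = ∑ i ∈ I, e i := by
  induction j generalizing w with
  | zero =>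
    refine ⟨∅, by simp, ?_⟩
    simp only [pk] at h
    by_contra hw
    simp only [Finset.sum_empty] at hw
    simp [hw] at h
  | succ j ih =>
    simp only [pk] at h
    by_cases h1 : pk e j w = 0
    · have h2 : pk e j (w - e j) ≠ 0 := by
        intro h2
        rw [h1, h2] at h
        norm_num at h
      obtain ⟨I, hI, hw⟩ := ih _ h2
      have hj : j ∉ I := fun hj => by simpa using hI hj
      refine ⟨insert j I, ?_, ?_⟩
      · intro i hi
        rcases Finset.mem_insert.mp hi with rfl | hi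
        · simp
        · have := Finset.mem_range.mp (hI hi)
          exact Finset.mem_range.mpr (by omega)
      · rw [Finset.sum_insert hj, ← hw]
        abel
    · obtain ⟨I, hI, hw⟩ := ih _ h1
      exact ⟨I, hI.trans (Finset.range_mono (Nat.le_succ j)), hw⟩

end kernel

variable {ι : Type*} [Fintype ι] [DecidableEq ι]
variable {G : Type*} [AddCommGroup G] [Fintype G] [DecidableEq G]
variable {ε : ℝ} (hε : 0 < ε)

/-- The functional at level `j` around `x`. -/
noncomputable def Jx (κ : ℝ) (e : ℕ → G) (f : G → Matrix ι ι ℂ) (j : ℕ) (x : G)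
    (ζ : Matrix ι ι ℂ) : ℝ := JJ hε κ (pk e j) (fun w => f (x + w)) ζ

/-- The average at level `j` around `x`. -/
noncomputable def Bx (e : ℕ → G) (f : G → Matrix ι ι ℂ) (j : ℕ) (x : G)
    (ζ : Matrix ι ι ℂ) : ℝ := BB hε (pk e j) (fun w => f (x + w)) ζ

theorem Jx_succ (κ : ℝ) (e : ℕ → G) (f : G → Matrix ι ι ℂ) (j : ℕ) (x : G)
    (ζ : Matrix ι ι ℂ) :
    Jx hε κ e f (j + 1) x ζ = (Jx hε κ e f j x ζ + Jx hε κ e f j (x + e j) ζ) / 2 := by
  have h := sum_pk_mul e j (fun w => Phi hε (f (x + w) + ζ))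
  simp only [Jx, JJ, BB]
  rw [h]
  simp only [add_assoc x (e j)]
  ring

theorem tn_avg_le {Ω : Type*} [Fintype Ω] (μ : Ω → ℝ) (hμ : ∀ w, 0 ≤ μ w)
    (A : Ω → Matrix ι ι ℂ) : tn (∑ w, (μ w : ℂ) • A w) ≤ ∑ w, μ w * tn (A w) := by
  apply tn_le
  intro U hU
  rw [Matrix.mul_sum, rt_sum]
  refine Finset.sum_le_sum fun w _ => ?_
  rw [Matrix.mul_smul, rt_smul]
  exact mul_le_mul_of_nonneg_left (le_tn hU _) (hμ w)

/-- Minus the Hermitian part. -/
noncomputable def vv (ζ : Matrix ι ι ℂ) : Matrix ι ι ℂ := -(((1 / 2 : ℝ) : ℂ) • (ζ + ζᴴ))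

omit [Fintype ι] [DecidableEq ι] in
theorem vv_herm (ζ : Matrix ι ι ℂ) : (vv ζ)ᴴ = vv ζ := by
  rw [vv, conjTranspose_neg, conjTranspose_smul, conjTranspose_add, conjTranspose_conjTranspose,
    Complex.star_def, Complex.conj_ofReal, add_comm]

omit [DecidableEq ι] in
theorem rt_herm_mul {W : Matrix ι ι ℂ} (hW : Wᴴ = W) (ζ : Matrix ι ι ℂ) :
    rt (W * ζ) = -rt (W * vv ζ) := by
  have h1 : rt (W * ζᴴ) = rt (W * ζ) := by
    rw [← rt_conj (W * ζᴴ), conjTranspose_mul, conjTranspose_conjTranspose, hW, rt_mul_comm]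
  rw [vv, Matrix.mul_neg, rt_neg, Matrix.mul_smul, rt_smul, Matrix.mul_add, rt_add, h1]
  ring

theorem tn_sub_vv {A : Matrix ι ι ℂ} (hA : Aᴴ = A) (ζ : Matrix ι ι ℂ) :
    tn (A - vv ζ) ≤ tn (A + ζ) := by
  have e : A - vv ζ = ((1 / 2 : ℝ) : ℂ) • ((A + ζ) + (A + ζ)ᴴ) := by
    rw [vv, conjTranspose_add, hA]
    have : A = ((1 / 2 : ℝ) : ℂ) • (A + A) := by
      rw [← two_smul ℂ A, smul_smul]
      norm_num
    calc A - -(((1 / 2 : ℝ) : ℂ) • (ζ + ζᴴ)) = A + ((1 / 2 : ℝ) : ℂ) • (ζ + ζᴴ) := by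
          rw [sub_neg_eq_add]
      _ = ((1 / 2 : ℝ) : ℂ) • (A + A) + ((1 / 2 : ℝ) : ℂ) • (ζ + ζᴴ) := by rw [← this]
      _ = _ := by rw [← smul_add]; congr 1; abel
  rw [e, tn_smul (by norm_num)]
  have := tn_add_le (A + ζ) (A + ζ)ᴴ
  rw [tn_conj] at this
  linarith

section chain

variable {κ : ℝ} {e : ℕ → G} {f : G → Matrix ι ι ℂ} {n : ℕ} {D : ℝ}

theorem Jx_le (hD : ∀ I : Finset ℕ, I ⊆ Finset.range n → ∀ x,
    tn (f (x + ∑ i ∈ I, e i) - f x) ≤ D) (hf : ∀ x, (f x)ᴴ = f x) {j : ℕ} (hj : j ≤ n) (x : G) :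
    Jx hε κ e f j x (-f x) ≤ D + ε * Fintype.card ι := by
  have h0 : (trace (-f x)).im = 0 := im_trace_herm (by rw [conjTranspose_neg, hf])
  rw [Jx, JJ, h0, mul_zero, sub_zero, BB]
  calc ∑ w, pk e j w * Phi hε (f (x + w) + -f x)
      ≤ ∑ w, pk e j w * (D + ε * Fintype.card ι) := by
        refine Finset.sum_le_sum fun w _ => ?_
        by_cases hw : pk e j w = 0
        · rw [hw]; simp
        · obtain ⟨I, hI, rfl⟩ := pk_supp e j w hw
          apply mul_le_mul_of_nonneg_left _ (pk_nonneg e j _)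
          refine (Phi_le hε _).trans ?_
          have := hD I (hI.trans (Finset.range_mono hj)) x
          rw [← sub_eq_add_neg]
          linarith
    _ = D + ε * Fintype.card ι := by rw [← Finset.sum_mul, sum_pk, one_mul]

theorem near (hD : ∀ I : Finset ℕ, I ⊆ Finset.range n → ∀ x,
    tn (f (x + ∑ i ∈ I, e i) - f x) ≤ D) (hf : ∀ x, (f x)ᴴ = f x) {j : ℕ} (hj : j ≤ n) (x : G)
    (ζ : Matrix ι ι ℂ) : tn (f x - vv ζ) ≤ D + Bx hε e f j x ζ := by
  have e1 : f x - vv ζ = ∑ w, (pk e j w : ℂ) • ((f x - f (x + w)) + (f (x + w) - vv ζ)) := by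
    have : ∀ w, (f x - f (x + w)) + (f (x + w) - vv ζ) = f x - vv ζ := fun w => by abel
    simp only [this]
    rw [← Finset.sum_smul]
    have h1 : ∑ w, (pk e j w : ℂ) = 1 := by
      rw [← Complex.ofReal_sum, sum_pk, Complex.ofReal_one]
    rw [h1, one_smul]
  rw [e1]
  refine (tn_avg_le (pk e j) (pk_nonneg e j) _).trans ?_
  have h1 : D + Bx hε e f j x ζ = ∑ w, pk e j w * (D + Phi hε (f (x + w) + ζ)) := by
    simp only [mul_add, Finset.sum_add_distrib]
    rw [← Finset.sum_mul, sum_pk, one_mul]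
    rfl
  rw [h1]
  refine Finset.sum_le_sum fun w _ => ?_
  by_cases hw : pk e j w = 0
  · rw [hw]; simp
  · obtain ⟨I, hI, rfl⟩ := pk_supp e j w hw
    apply mul_le_mul_of_nonneg_left _ (pk_nonneg e j _)
    refine (tn_add_le _ _).trans (add_le_add ?_ ?_)
    · rw [tn_sub_comm]
      exact hD I (hI.trans (Finset.range_mono hj)) x
    · exact (tn_sub_vv (hf _) ζ).trans (tn_le_Phi hε _)

omit [DecidableEq G] in
theorem telescope (v : G → Matrix ι ι ℂ) (a : G) (m : ℕ) :
    ∑ x, tn (v (x + m • a) - v x) ≤ m * ∑ x, tn (v (x + a) - v x) := by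
  induction m with
  | zero => simp [tn_zero]
  | succ m ih =>
    have h1 : ∑ x, tn (v (x + (m + 1) • a) - v x) ≤
        ∑ x, (tn (v (x + m • a + a) - v (x + m • a)) + tn (v (x + m • a) - v x)) := by
      refine Finset.sum_le_sum fun x _ => ?_
      have := tn_sub_le (v (x + m • a + a)) (v (x + m • a)) (v x)
      rw [succ_nsmul, ← add_assoc]
      exact this
    have h2 : ∑ x, tn (v (x + m • a + a) - v (x + m • a)) = ∑ x, tn (v (x + a) - v x) :=
      Equiv.sum_comp (Equiv.addRight (m • a)) (fun x => tn (v (x + a) - v x))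
    rw [Finset.sum_add_distrib, h2] at h1
    push_cast
    linarith

include hε in
/-- The main inequality of the chain argument. -/
theorem chain_ineq (hκ0 : 0 ≤ κ) (hκ1 : κ < 1)
    (hD : ∀ I : Finset ℕ, I ⊆ Finset.range n → ∀ x, tn (f (x + ∑ i ∈ I, e i) - f x) ≤ D)
    (hf : ∀ x, (f x)ᴴ = f x) {m : ℕ} (hm : 0 < m) {a : ℝ}
    (ha : ∀ j < n, a * Fintype.card G ≤ ∑ x, tn (f (x + m • e j) - f x))
    {c l : ℝ} (hl : 0 ≤ l) (hc : c ≤ 1) (hcl : c ^ 2 + l ^ 2 = 1) {K : ℝ}
    (hK : K = (D + ε * Fintype.card ι) / (1 - κ)) :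
    n * (κ * l / 2 * ((a - 2 * (D + K)) / m) - (1 - c) * ((1 + 2 * κ) * K)) ≤
      D + ε * Fintype.card ι := by
  have h1κ : 0 < 1 - κ := by linarith
  have hcard : (0 : ℝ) < Fintype.card G := by
    have : 0 < Fintype.card G := Fintype.card_pos
    exact_mod_cast this
  have hm' : (0 : ℝ) < m := by exact_mod_cast hm
  -- minimisers
  have hmin : ∀ j x, ∃ ζ, ∀ ζ', Jx hε κ e f j x ζ ≤ Jx hε κ e f j x ζ' := fun j x =>
    exists_min hε hκ0 hκ1 (pk_nonneg e j) (sum_pk e j) (fun w => hf (x + w))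
  choose ζ hζ using hmin
  have hJ : ∀ j ≤ n, ∀ x, Jx hε κ e f j x (ζ j x) ≤ D + ε * Fintype.card ι := fun j hj x =>
    (hζ j x _).trans (Jx_le hε hD hf hj x)
  have hB : ∀ j ≤ n, ∀ x, Bx hε e f j x (ζ j x) ≤ K := fun j hj x => by
    rw [hK, le_div_iff₀ h1κ, mul_comm]
    exact (BB_le hε hκ0 (pk_nonneg e j) (sum_pk e j) (fun w => hf (x + w)) (ζ j x)).trans
      (hJ j hj x)
  have hI : ∀ j ≤ n, ∀ x, |(trace (ζ j x)).im| ≤ K := fun j hj x =>
    (abs_im_le_BB hε (pk_nonneg e j) (sum_pk e j) (fun w => hf (x + w)) (ζ j x)).trans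
      (hB j hj x)
  obtain ⟨M, hM⟩ : ∃ M : ℕ → ℝ, M = fun j => ∑ x, Jx hε κ e f j x (ζ j x) := ⟨_, rfl⟩
  have hM0 : 0 ≤ M 0 := by
    rw [hM]
    refine Finset.sum_nonneg fun x _ => ?_
    exact (mul_nonneg h1κ.le (BB_nonneg hε (pk_nonneg e 0) _)).trans
      (BB_le hε hκ0 (pk_nonneg e 0) (sum_pk e 0) (fun w => hf (x + w)) (ζ 0 x))
  have hMn : M n ≤ Fintype.card G * (D + ε * Fintype.card ι) := by
    rw [hM]
    calc ∑ x, Jx hε κ e f n x (ζ n x) ≤ ∑ _x : G, (D + ε * Fintype.card ι) :=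
          Finset.sum_le_sum fun x _ => hJ n le_rfl x
      _ = _ := by rw [Finset.sum_const, Finset.card_univ, nsmul_eq_mul]
  -- one step
  have hstep : ∀ j < n, M j + κ * l / 2 * ∑ x, tn (vv (ζ j (x + e j)) - vv (ζ j x)) -
      Fintype.card G * ((1 - c) * ((1 + 2 * κ) * K)) ≤ M (j + 1) := by
    intro j hj
    have hpt : ∀ x, (Jx hε κ e f j x (ζ j x) + Jx hε κ e f j (x + e j) (ζ j (x + e j))) / 2 +
        κ * l / 2 * tn (vv (ζ j (x + e j)) - vv (ζ j x)) - (1 - c) * ((1 + 2 * κ) * K) ≤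
        Jx hε κ e f (j + 1) x (ζ (j + 1) x) := by
      intro x
      obtain ⟨W, hW, hW2, hWn⟩ := norming (A := vv (ζ j (x + e j)) - vv (ζ j x)) (by
        rw [Matrix.IsHermitian, conjTranspose_sub, vv_herm, vv_herm])
      have hnW : (-W)ᴴ = -W := by rw [conjTranspose_neg, hW]
      have hnW2 : (-W) * (-W) = 1 := by rw [neg_mul_neg, hW2]
      have g0 := growth hε (κ := κ) (hζ j x) (pk_nonneg e j) hnW hnW2 hcl
        (ζ (j + 1) x - ζ j x)
      have g1 := growth hε (κ := κ) (hζ j (x + e j)) (pk_nonneg e j) hW hW2 hcl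
        (ζ (j + 1) x - ζ j (x + e j))
      rw [add_sub_cancel] at g0 g1
      rw [Jx_succ]
      have hi0 : (trace (ζ (j + 1) x - ζ j x)).im ≤ 2 * K := by
        rw [trace_sub, Complex.sub_im]
        have h1 := (abs_le.mp (hI (j + 1) hj x)).2
        have h2 := (abs_le.mp (hI j hj.le x)).1
        linarith
      have hi1 : (trace (ζ (j + 1) x - ζ j (x + e j))).im ≤ 2 * K := by
        rw [trace_sub, Complex.sub_im]
        have h1 := (abs_le.mp (hI (j + 1) hj x)).2
        have h2 := (abs_le.mp (hI j hj.le (x + e j))).1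
        linarith
      have b0 := hB j hj.le x
      have b1 := hB j hj.le (x + e j)
      have hrt : rt (-W * (ζ (j + 1) x - ζ j x)) + rt (W * (ζ (j + 1) x - ζ j (x + e j))) =
          rt (W * (vv (ζ j (x + e j)) - vv (ζ j x))) := by
        rw [Matrix.neg_mul, rt_neg, Matrix.mul_sub, Matrix.mul_sub, Matrix.mul_sub, rt_sub,
          rt_sub, rt_sub, rt_herm_mul hW (ζ j x), rt_herm_mul hW (ζ j (x + e j))]
        ring
      have hc1 : 0 ≤ 1 - c := by linarith
      have hkl : 0 ≤ κ * l := mul_nonneg hκ0 hl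
      have t0 : (1 - c) * (BB hε (pk e j) (fun w => f (x + w)) (ζ j x) +
          κ * (trace (ζ (j + 1) x - ζ j x)).im) ≤ (1 - c) * ((1 + 2 * κ) * K) := by
        apply mul_le_mul_of_nonneg_left _ hc1
        have := mul_le_mul_of_nonneg_left hi0 hκ0
        have b0' : BB hε (pk e j) (fun w => f (x + w)) (ζ j x) ≤ K := b0
        linarith
      have t1 : (1 - c) * (BB hε (pk e j) (fun w => f (x + e j + w)) (ζ j (x + e j)) +
          κ * (trace (ζ (j + 1) x - ζ j (x + e j))).im) ≤ (1 - c) * ((1 + 2 * κ) * K) := by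
        apply mul_le_mul_of_nonneg_left _ hc1
        have := mul_le_mul_of_nonneg_left hi1 hκ0
        have b1' : BB hε (pk e j) (fun w => f (x + e j + w)) (ζ j (x + e j)) ≤ K := b1
        linarith
      have t2 : κ * l * tn (vv (ζ j (x + e j)) - vv (ζ j x)) ≤
          κ * l * rt (-W * (ζ (j + 1) x - ζ j x)) +
          κ * l * rt (W * (ζ (j + 1) x - ζ j (x + e j))) := by
        rw [← mul_add, hrt]
        exact mul_le_mul_of_nonneg_left hWn hkl
      have g0' : Jx hε κ e f j x (ζ j x) + κ * l * rt (-W * (ζ (j + 1) x - ζ j x)) -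
          (1 - c) * (BB hε (pk e j) (fun w => f (x + w)) (ζ j x) +
          κ * (trace (ζ (j + 1) x - ζ j x)).im) ≤ Jx hε κ e f j x (ζ (j + 1) x) := g0
      have g1' : Jx hε κ e f j (x + e j) (ζ j (x + e j)) +
          κ * l * rt (W * (ζ (j + 1) x - ζ j (x + e j))) -
          (1 - c) * (BB hε (pk e j) (fun w => f (x + e j + w)) (ζ j (x + e j)) +
          κ * (trace (ζ (j + 1) x - ζ j (x + e j))).im) ≤
          Jx hε κ e f j (x + e j) (ζ (j + 1) x) := g1
      linarith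
    have hsum := Finset.sum_le_sum fun x (_ : x ∈ Finset.univ) => hpt x
    rw [Finset.sum_sub_distrib, Finset.sum_add_distrib, ← Finset.sum_div, Finset.sum_add_distrib,
      ← Finset.mul_sum, Finset.sum_const, Finset.card_univ, nsmul_eq_mul] at hsum
    have hshift : ∑ x, Jx hε κ e f j (x + e j) (ζ j (x + e j)) =
        ∑ x, Jx hε κ e f j x (ζ j x) :=
      Equiv.sum_comp (Equiv.addRight (e j)) (fun x => Jx hε κ e f j x (ζ j x))
    rw [hshift] at hsum
    rw [hM]
    dsimp only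
    linarith
  -- lower bound for the increments
  have hinc : ∀ j < n, (a - 2 * (D + K)) / m * Fintype.card G ≤
      ∑ x, tn (vv (ζ j (x + e j)) - vv (ζ j x)) := by
    intro j hj
    have h1 := telescope (fun x => vv (ζ j x)) (e j) m
    have h2 := ha j hj
    have h3 : ∑ x, tn (f (x + m • e j) - f x) ≤
        ∑ x, (2 * (D + K) + tn (vv (ζ j (x + m • e j)) - vv (ζ j x))) := by
      refine Finset.sum_le_sum fun x _ => ?_
      have n0 := near hε hD hf hj.le x (ζ j x)
      have n1 := near hε hD hf hj.le (x + m • e j) (ζ j (x + m • e j))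
      have b0 := hB j hj.le x
      have b1 := hB j hj.le (x + m • e j)
      have s1 := tn_sub_le (f (x + m • e j)) (vv (ζ j (x + m • e j))) (f x)
      have s2 := tn_sub_le (vv (ζ j (x + m • e j))) (vv (ζ j x)) (f x)
      rw [tn_sub_comm (vv (ζ j x)) (f x)] at s2
      linarith
    rw [Finset.sum_add_distrib, Finset.sum_const, Finset.card_univ, nsmul_eq_mul] at h3
    rw [div_mul_eq_mul_div, div_le_iff₀ hm']
    nlinarith
  have hall : ∀ j ≤ n, M 0 + j * (Fintype.card G *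
      (κ * l / 2 * ((a - 2 * (D + K)) / m) - (1 - c) * ((1 + 2 * κ) * K))) ≤ M j := by
    intro j
    induction j with
    | zero => intro _; simp
    | succ j ih =>
      intro hj
      have h1 := ih (by omega)
      have h2 := hstep j (by omega)
      have h3 := hinc j (by omega)
      have h4 : κ * l / 2 * ((a - 2 * (D + K)) / m * Fintype.card G) ≤
          κ * l / 2 * ∑ x, tn (vv (ζ j (x + e j)) - vv (ζ j x)) :=
        mul_le_mul_of_nonneg_left h3 (by positivity)
      push_cast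
      linarith
  have hfin := hall n le_rfl
  have h5 : n * (κ * l / 2 * ((a - 2 * (D + K)) / m) - (1 - c) * ((1 + 2 * κ) * K)) *
      Fintype.card G ≤ (D + ε * Fintype.card ι) * Fintype.card G := by
    linarith
  exact le_of_mul_le_mul_right h5 hcard

end chain

end Pool.Agent.H47.S1
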