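import Pool.Agent.H47.S1.Chain
import Pool.Agent.H47.Grid.Smooth

/-!
# The distortion bound for grids in the trace class of `N × N` matrices
-/

open Matrix
open scoped ComplexOrder

namespace Pool.Agent.H47.S1

open Pool.Agent.H47.Grid (cabs cabs_natCast cabs_le_half cabs_neg cabs_lip gridDist
  gridDist_nonneg gridDist_le le_gridDist cabs_zero cabs_one_le)

/-! ### One dimensional facts -/

theorem cabs_refl {m : ℕ} [NeZero (2 * m)] (z : ZMod (2 * m)) :
    cabs (z + (m : ZMod (2 * m))) + cabs z = m := by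
  have hz : z = ((z.val : ℕ) : ZMod (2 * m)) := (ZMod.natCast_zmod_val z).symm
  have hlt : z.val < 2 * m := ZMod.val_lt z
  have h2m : ((2 * m : ℕ) : ZMod (2 * m)) = 0 := ZMod.natCast_self _
  rcases lt_or_ge z.val m with h | h
  · have h1 : cabs z = z.val := by
      conv_lhs => rw [hz]
      exact cabs_natCast (by omega)
    have h2 : cabs (z + (m : ZMod (2 * m))) = m - z.val := by
      rw [← cabs_neg]
      have : -(z + (m : ZMod (2 * m))) = ((m - z.val : ℕ) : ZMod (2 * m)) := by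
        rw [Nat.cast_sub h.le]
        have h3 : (m : ZMod (2 * m)) + (m : ZMod (2 * m)) = 0 := by
          rw [← h2m]; push_cast; ring
        have h4 : (m : ZMod (2 * m)) = -(m : ZMod (2 * m)) := eq_neg_of_add_eq_zero_left h3
        rw [ZMod.natCast_zmod_val]
        calc -(z + (m : ZMod (2 * m))) = -(m : ZMod (2 * m)) - z := by ring
          _ = (m : ZMod (2 * m)) - z := by rw [← h4]
      rw [this]
      exact cabs_natCast (by omega)
    rw [h1, h2]
    omega
  · have h1 : cabs z = 2 * m - z.val := by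
      rw [← cabs_neg]
      have : -z = ((2 * m - z.val : ℕ) : ZMod (2 * m)) := by
        rw [Nat.cast_sub hlt.le, h2m, ZMod.natCast_zmod_val, zero_sub]
      rw [this]
      exact cabs_natCast (by omega)
    have h2 : cabs (z + (m : ZMod (2 * m))) = z.val - m := by
      have : z + (m : ZMod (2 * m)) = ((z.val - m : ℕ) : ZMod (2 * m)) := by
        rw [Nat.cast_sub h, ZMod.natCast_zmod_val]
        have h3 : (m : ZMod (2 * m)) + (m : ZMod (2 * m)) = 0 := by
          rw [← h2m]; push_cast; ring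
        have h4 : (m : ZMod (2 * m)) = -(m : ZMod (2 * m)) := eq_neg_of_add_eq_zero_left h3
        rw [sub_eq_add_neg, ← h4]
      rw [this]
      exact cabs_natCast (by omega)
    rw [h1, h2]
    omega

theorem sum_sq (M : ℝ) (k : ℕ) : ∑ i ∈ Finset.range k, 3 * (M - 2 * (i : ℝ)) ^ 2 =
    3 * k * M ^ 2 - 6 * M * (k * (k - 1)) + 2 * (k * (k - 1) * (2 * k - 1)) := by
  induction k with
  | zero => simp
  | succ k ih =>
    rw [Finset.sum_range_succ, ih]
    push_cast
    ring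

theorem sum_zmod_eq {L : ℕ} [NeZero L] (h : ZMod L → ℝ) :
    ∑ z, h z = ∑ i ∈ Finset.range L, h (i : ZMod L) := by
  rw [← Fin.sum_univ_eq_sum_range (fun i => h (i : ZMod L)) L]
  have e : ∀ z : ZMod L, h z = h ((z.val : ℕ) : ZMod L) := fun z => by
    rw [ZMod.natCast_zmod_val]
  rw [Finset.sum_congr rfl fun z _ => e z]
  obtain ⟨σ, hσ⟩ : ∃ σ : ZMod L ≃ Fin L, ∀ z, (σ z : ℕ) = z.val := by
    refine ⟨(ZMod.finEquiv L).toEquiv.symm, fun z => ?_⟩
    obtain ⟨k, hk⟩ : ∃ k, L = k + 1 := ⟨L - 1, by have := NeZero.pos L; omega⟩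
    subst hk
    rfl
  rw [← Equiv.sum_comp σ]
  exact Finset.sum_congr rfl fun z _ => by rw [hσ]

theorem sum_fold {m : ℕ} (hm : 0 < m) [NeZero (2 * m)] :
    (m : ℝ) / 3 * (2 * m) ≤ ∑ z : ZMod (2 * m), |(m : ℝ) - 2 * (cabs z : ℝ)| := by
  have hm' : (0 : ℝ) < m := by exact_mod_cast hm
  have h1 : ∀ z : ZMod (2 * m), ((m : ℝ) - 2 * (cabs z : ℝ)) ^ 2 / m ≤
      |(m : ℝ) - 2 * (cabs z : ℝ)| := by
    intro z
    have hc : 2 * cabs z ≤ 2 * m := cabs_le_half z
    have hc' : (cabs z : ℝ) ≤ m := by exact_mod_cast (by omega : cabs z ≤ m)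
    have hc0 : (0 : ℝ) ≤ cabs z := by positivity
    have h2 : |(m : ℝ) - 2 * (cabs z : ℝ)| ≤ m := by
      rw [abs_le]; constructor <;> linarith
    rw [div_le_iff₀ hm', ← sq_abs, pow_two]
    exact mul_le_mul_of_nonneg_left h2 (abs_nonneg _)
  refine le_trans ?_ (Finset.sum_le_sum fun z _ => h1 z)
  have hsplit : ∀ h : ℕ → ℝ, ∑ i ∈ Finset.range (2 * m), h i =
      ∑ i ∈ Finset.range m, h i + ∑ i ∈ Finset.range m, h (m + i) := fun h => by
    rw [two_mul, Finset.sum_range_add]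
  rw [← Finset.sum_div, sum_zmod_eq, hsplit, le_div_iff₀ hm']
  have e1 : ∑ x ∈ Finset.range m, ((m : ℝ) - 2 * (cabs ((x : ℕ) : ZMod (2 * m)) : ℝ)) ^ 2 =
      ∑ x ∈ Finset.range m, ((m : ℝ) - 2 * (x : ℝ)) ^ 2 := by
    refine Finset.sum_congr rfl fun x hx => ?_
    have := Finset.mem_range.mp hx
    rw [cabs_natCast (by omega)]
  have e2 : ∑ x ∈ Finset.range m, ((m : ℝ) -
      2 * (cabs (((m + x : ℕ)) : ZMod (2 * m)) : ℝ)) ^ 2 =
      ∑ x ∈ Finset.range m, ((m : ℝ) - 2 * (x : ℝ)) ^ 2 := by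
    refine Finset.sum_congr rfl fun x hx => ?_
    have hx' := Finset.mem_range.mp hx
    have h2 := cabs_refl ((x : ℕ) : ZMod (2 * m))
    rw [cabs_natCast (L := 2 * m) (i := x) (by omega)] at h2
    have h3 : (((m + x : ℕ)) : ZMod (2 * m)) = (x : ZMod (2 * m)) + (m : ZMod (2 * m)) := by
      push_cast; ring
    rw [h3]
    have h4 : (cabs ((x : ZMod (2 * m)) + (m : ZMod (2 * m))) : ℝ) = m - x := by
      have : ((cabs ((x : ZMod (2 * m)) + (m : ZMod (2 * m))) + x : ℕ) : ℝ) = m := by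
        exact_mod_cast h2
      push_cast at this
      linarith
    rw [h4]
    ring
  have e1' : ∑ x ∈ Finset.range m, ((m : ℝ) - 2 * (cabs ((x : ℕ) : ZMod (2 * m)) : ℝ)) ^ 2 +
      ∑ x ∈ Finset.range m, ((m : ℝ) - 2 * (cabs (((m + x : ℕ)) : ZMod (2 * m)) : ℝ)) ^ 2 =
      2 * ∑ x ∈ Finset.range m, ((m : ℝ) - 2 * (x : ℝ)) ^ 2 := by
    rw [e1, e2]; ring
  have e3 := sum_sq (m : ℝ) m
  rw [← Finset.mul_sum] at e3
  have e4 : (m : ℝ) / 3 * (2 * m) * m ≤
      2 * ∑ x ∈ Finset.range m, ((m : ℝ) - 2 * (x : ℝ)) ^ 2 := by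
    nlinarith
  exact e4.trans_eq e1'.symm

theorem sum_coord {n L : ℕ} [NeZero L] (j : Fin n) (h : ZMod L → ℝ) :
    (L : ℝ) * ∑ x : Fin n → ZMod L, h (x j) =
      Fintype.card (Fin n → ZMod L) * ∑ z, h z := by
  obtain ⟨s, hs⟩ : ∃ s : ZMod L → Fin n → ZMod L, s = fun t l => if l = j then t else 0 :=
    ⟨_, rfl⟩
  have h1 : ∀ t : ZMod L, ∑ x : Fin n → ZMod L, h (x j) = ∑ x : Fin n → ZMod L, h (x j + t) := by
    intro t
    rw [← Equiv.sum_comp (Equiv.addRight (s t))]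
    refine Finset.sum_congr rfl fun x _ => ?_
    simp [hs]
  have h2 : (L : ℝ) * ∑ x : Fin n → ZMod L, h (x j) =
      ∑ t : ZMod L, ∑ x : Fin n → ZMod L, h (x j + t) := by
    rw [← Finset.sum_congr rfl fun t _ => h1 t, Finset.sum_const, Finset.card_univ, ZMod.card,
      nsmul_eq_mul]
  rw [h2, Finset.sum_comm]
  have h3 : ∀ x : Fin n → ZMod L, ∑ t : ZMod L, h (x j + t) = ∑ z, h z := by
    intro x
    exact Equiv.sum_comp (Equiv.addLeft (x j)) h
  rw [Finset.sum_congr rfl fun x _ => h3 x, Finset.sum_const, Finset.card_univ, nsmul_eq_mul]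

/-! ### Hermitian matrices -/

variable {ι : Type*} [Fintype ι] [DecidableEq ι]

/-- folding the torus onto the grid -/
def fv {n m : ℕ} [NeZero (2 * m)] (x : Fin n → ZMod (2 * m)) : Fin n → Fin (m + 1) :=
  fun i => ⟨cabs (x i), by have := cabs_le_half (x i); omega⟩

/-- the coordinate steps -/
def ee (n m : ℕ) (j : ℕ) : Fin n → ZMod (2 * m) := fun l => if (l : ℕ) = j then 1 else 0

theorem sum_ee {n m : ℕ} (I : Finset ℕ) (l : Fin n) :
    (∑ i ∈ I, ee n m i) l = if (l : ℕ) ∈ I then 1 else 0 := by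
  rw [Finset.sum_apply]
  simp [ee]

theorem herm_aux {n m : ℕ} (hn : 1 ≤ n) (hm : 1 ≤ m) {s D ε : ℝ} (hs : 0 ≤ s) (hD : 0 ≤ D)
    (hε : 0 < ε)
    (g : (Fin n → Fin (m + 1)) → Matrix ι ι ℂ) (hg : ∀ x, (g x)ᴴ = g x)
    (hlow : ∀ x y, s * gridDist x y ≤ tn (g x - g y))
    (hup : ∀ x y, tn (g x - g y) ≤ D * gridDist x y) :
    s / 120 * min (m : ℝ) (Real.sqrt n) ≤ D + ε * Fintype.card ι := by
  have : NeZero (2 * m) := ⟨by omega⟩
  have hm0 : (0 : ℝ) < m := by exact_mod_cast hm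
  have hn0 : (0 : ℝ) < n := by exact_mod_cast hn
  have hn1 : (1 : ℝ) ≤ n := by exact_mod_cast hn
  obtain ⟨l, hl⟩ : ∃ l : ℝ, l = 1 / Real.sqrt n := ⟨_, rfl⟩
  have hsq : Real.sqrt n * Real.sqrt n = n := Real.mul_self_sqrt hn0.le
  have hsq0 : 0 < Real.sqrt n := Real.sqrt_pos.mpr hn0
  have hl0 : 0 < l := by rw [hl]; positivity
  have hnl : (n : ℝ) * l = Real.sqrt n := by
    rw [hl]
    field_simp
    nlinarith
  have hnl2 : (n : ℝ) * l ^ 2 = 1 := by
    rw [hl]
    field_simp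
    nlinarith
  have hl1 : l ^ 2 ≤ 1 := by nlinarith
  obtain ⟨c, hc⟩ : ∃ c : ℝ, c = Real.sqrt (1 - l ^ 2) := ⟨_, rfl⟩
  have hc2 : c ^ 2 = 1 - l ^ 2 := by rw [hc]; exact Real.sq_sqrt (by linarith)
  have hc0 : 0 ≤ c := by rw [hc]; exact Real.sqrt_nonneg _
  have hc1 : c ≤ 1 := by nlinarith
  have hcl : 1 - c ≤ l ^ 2 := by nlinarith
  obtain ⟨f, hf⟩ : ∃ f : (Fin n → ZMod (2 * m)) → Matrix ι ι ℂ, f = fun x => g (fv x) :=
    ⟨_, rfl⟩
  obtain ⟨D', hD'⟩ : ∃ D' : ℝ, D' = D + ε * Fintype.card ι := ⟨_, rfl⟩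
  have hDD : D ≤ D' := by
    rw [hD']
    have : 0 ≤ ε * Fintype.card ι := by positivity
    linarith
  have key := chain_ineq hε (κ := 1 / 2) (e := ee n m) (f := f) (n := n) (D := D) (m := m)
    (a := s * (m / 3)) (c := c) (l := l) (K := 2 * D') (by norm_num) (by norm_num)
    (by
      intro I _ x
      rw [hf]
      refine (hup _ _).trans ?_
      have : gridDist (fv (x + ∑ i ∈ I, ee n m i)) (fv x) ≤ 1 := by
        apply gridDist_le _ _ (by norm_num)
        intro i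
        simp only [fv]
        have h1 := cabs_lip (x i) ((∑ i ∈ I, ee n m i) i)
        refine le_trans ?_ (h1.trans ?_)
        · exact le_rfl
        · rw [sum_ee]
          split_ifs
          · exact_mod_cast cabs_one_le
          · rw [cabs_zero]; norm_num
      calc D * _ ≤ D * 1 := mul_le_mul_of_nonneg_left this hD
        _ = D := mul_one D)
    (by intro x; rw [hf]; exact hg _)
    (by omega)
    (by
      intro j hj
      rw [hf]
      have h1 : ∀ x : Fin n → ZMod (2 * m), s * |(m : ℝ) - 2 * (cabs (x ⟨j, hj⟩) : ℝ)| ≤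
          tn (g (fv (x + m • ee n m j)) - g (fv x)) := by
        intro x
        refine le_trans ?_ (hlow _ _)
        apply mul_le_mul_of_nonneg_left _ hs
        have h2 := le_gridDist (fv (x + m • ee n m j)) (fv x) ⟨j, hj⟩
        refine le_trans (le_of_eq ?_) h2
        simp only [fv]
        have h3 : (x + m • ee n m j) ⟨j, hj⟩ = x ⟨j, hj⟩ + (m : ZMod (2 * m)) := by
          simp [ee]
        rw [h3]
        have h4 := cabs_refl (x ⟨j, hj⟩)
        have h5 : (cabs (x ⟨j, hj⟩ + (m : ZMod (2 * m))) : ℝ) = m - cabs (x ⟨j, hj⟩) := by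
          have : ((cabs (x ⟨j, hj⟩ + (m : ZMod (2 * m))) + cabs (x ⟨j, hj⟩) : ℕ) : ℝ) = m := by
            exact_mod_cast h4
          push_cast at this
          linarith
        rw [h5]
        congr 1
        ring
      refine le_trans ?_ (Finset.sum_le_sum fun x _ => h1 x)
      rw [← Finset.mul_sum, mul_assoc]
      apply mul_le_mul_of_nonneg_left _ hs
      have h6 := sum_coord (n := n) (L := 2 * m) ⟨j, hj⟩ (fun z => |(m : ℝ) - 2 * (cabs z : ℝ)|)
      have h7 := sum_fold (m := m) (by omega)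
      have h8 : (0 : ℝ) < Fintype.card (Fin n → ZMod (2 * m)) := by
        exact_mod_cast Fintype.card_pos
      have h9 := mul_le_mul_of_nonneg_left h7 h8.le
      rw [← h6] at h9
      push_cast at h9
      have h10 : (0 : ℝ) < 2 * m := by positivity
      have h11 : (2 * (m : ℝ)) * (m / 3 * Fintype.card (Fin n → ZMod (2 * m))) ≤
          (2 * (m : ℝ)) * ∑ x : Fin n → ZMod (2 * m), |(m : ℝ) - 2 * (cabs (x ⟨j, hj⟩) : ℝ)| := by
        linarith
      exact le_of_mul_le_mul_left h11 h10)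
    hl0.le hc1 (by rw [hc2]; ring)
    (by rw [hD']; ring)
  rw [← hD'] at key ⊢
  have hD'0 : 0 ≤ D' := hD.trans hDD
  -- arithmetic
  have hsq2 := Real.sqrt_nonneg (n : ℝ)
  rcases le_or_gt (s * m / 36) D' with h | h
  · calc s / 120 * min (m : ℝ) (Real.sqrt n) ≤ s / 120 * m :=
        mul_le_mul_of_nonneg_left (min_le_left _ _) (by positivity)
      _ ≤ s * m / 36 := by
        have : 0 ≤ s * m := by positivity
        linarith
      _ ≤ D' := h
  · have h1 : s / 6 ≤ (s * (m / 3) - 2 * (D + 2 * D')) / m := by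
      rw [le_div_iff₀ hm0]
      nlinarith
    have h2 : (n : ℝ) * (1 / 2 * l / 2 * (s / 6) - l ^ 2 * (2 * (2 * D'))) ≤ D' := by
      refine le_trans ?_ key
      apply mul_le_mul_of_nonneg_left _ hn0.le
      have h3 : 1 / 2 * l / 2 * (s / 6) ≤
          1 / 2 * l / 2 * ((s * (m / 3) - 2 * (D + 2 * D')) / m) :=
        mul_le_mul_of_nonneg_left h1 (by positivity)
      have h4 : (1 - c) * (2 * (2 * D')) ≤ l ^ 2 * (2 * (2 * D')) :=
        mul_le_mul_of_nonneg_right hcl (by positivity)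
      have h5 : (1 : ℝ) + 2 * (1 / 2) = 2 := by norm_num
      rw [h5]
      linarith
    have h3 : (n : ℝ) * (1 / 2 * l / 2 * (s / 6) - l ^ 2 * (2 * (2 * D'))) =
        Real.sqrt n * (s / 24) - 4 * D' := by
      calc _ = (n * l) * (s / 24) - 4 * (n * l ^ 2) * D' := by ring
        _ = _ := by rw [hnl, hnl2]; ring
    rw [h3] at h2
    calc s / 120 * min (m : ℝ) (Real.sqrt n) ≤ s / 120 * Real.sqrt n :=
        mul_le_mul_of_nonneg_left (min_le_right _ _) (by positivity)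
      _ ≤ D' := by linarith

theorem herm_grid {n m : ℕ} (hn : 1 ≤ n) (hm : 1 ≤ m) {s D : ℝ} (hs : 0 ≤ s) (hD : 0 ≤ D)
    (g : (Fin n → Fin (m + 1)) → Matrix ι ι ℂ) (hg : ∀ x, (g x)ᴴ = g x)
    (hlow : ∀ x y, s * gridDist x y ≤ tn (g x - g y))
    (hup : ∀ x y, tn (g x - g y) ≤ D * gridDist x y) :
    s / 120 * min (m : ℝ) (Real.sqrt n) ≤ D := by
  apply le_of_forall_pos_le_add
  intro δ hδ
  have hc : (0 : ℝ) < Fintype.card ι + 1 := by positivity
  have := herm_aux hn hm hs hD (ε := δ / (Fintype.card ι + 1)) (by positivity) g hg hlow hup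
  refine this.trans ?_
  have h1 : δ / (Fintype.card ι + 1) * Fintype.card ι ≤ δ := by
    rw [div_mul_eq_mul_div, div_le_iff₀ hc]
    nlinarith
  linarith

/-! ### Dilation -/

/-- The Hermitian dilation. -/
def dil (A : Matrix ι ι ℂ) : Matrix (ι ⊕ ι) (ι ⊕ ι) ℂ := fromBlocks 0 A Aᴴ 0

omit [Fintype ι] [DecidableEq ι] in
theorem dil_herm (A : Matrix ι ι ℂ) : (dil A)ᴴ = dil A := by
  rw [dil, fromBlocks_conjTranspose, conjTranspose_zero, conjTranspose_conjTranspose]

omit [Fintype ι] [DecidableEq ι] in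
theorem dil_sub (A B : Matrix ι ι ℂ) : dil A - dil B = dil (A - B) := by
  rw [dil, dil, dil, sub_eq_add_neg, fromBlocks_neg, fromBlocks_add, conjTranspose_sub]
  simp [sub_eq_add_neg]

omit [DecidableEq ι] in
theorem rt_fromBlocks (A B C D : Matrix ι ι ℂ) : rt (fromBlocks A B C D) = rt A + rt D := by
  rw [rt, Matrix.trace, Fintype.sum_sum_type, Complex.add_re]
  rfl

theorem con_block {U V : Matrix ι ι ℂ} (hU : Con U) (hV : Con V) :
    Con (fromBlocks 0 U V 0) := by
  obtain ⟨X, hX⟩ : ∃ X : Matrix ι ι ℂ, 1 - Vᴴ * V = Xᴴ * X := by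
    open scoped MatrixOrder in
    exact CStarAlgebra.nonneg_iff_eq_star_mul_self.mp (Matrix.PosSemidef.nonneg hV)
  obtain ⟨Y, hY⟩ : ∃ Y : Matrix ι ι ℂ, 1 - Uᴴ * U = Yᴴ * Y := by
    open scoped MatrixOrder in
    exact CStarAlgebra.nonneg_iff_eq_star_mul_self.mp (Matrix.PosSemidef.nonneg hU)
  have e : 1 - (fromBlocks 0 U V 0)ᴴ * (fromBlocks 0 U V 0) =
      (fromBlocks X 0 0 Y)ᴴ * (fromBlocks X 0 0 Y) := by
    rw [fromBlocks_conjTranspose, fromBlocks_conjTranspose, fromBlocks_multiply,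
      fromBlocks_multiply, ← fromBlocks_one, sub_eq_add_neg, fromBlocks_neg, fromBlocks_add]
    simp only [conjTranspose_zero, Matrix.zero_mul, Matrix.mul_zero, zero_add, add_zero,
      neg_zero, ← hX, ← hY, sub_eq_add_neg]
  rw [Con, e]
  exact posSemidef_conjTranspose_mul_self _

theorem tn_dil (A : Matrix ι ι ℂ) : tn (dil A) = 2 * tn A := by
  apply le_antisymm
  · apply tn_le
    intro U hU
    obtain ⟨a, b, c, d, rfl⟩ : ∃ a b c d, U = fromBlocks a b c d :=
      ⟨_, _, _, _, (fromBlocks_toBlocks U).symm⟩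
    rw [Con, fromBlocks_conjTranspose, fromBlocks_multiply, ← fromBlocks_one, sub_eq_add_neg,
      fromBlocks_neg, fromBlocks_add] at hU
    have hb : Con b := by
      have h1 := hU.submatrix (Sum.inr : ι → ι ⊕ ι)
      have h2 := posSemidef_conjTranspose_mul_self d
      have e : 1 - bᴴ * b = (fromBlocks (1 + -(aᴴ * a + cᴴ * c)) (0 + -(aᴴ * b + cᴴ * d))
        (0 + -(bᴴ * a + dᴴ * c)) (1 + -(bᴴ * b + dᴴ * d))).submatrix Sum.inr Sum.inr +
          dᴴ * d := by
        rw [show (fromBlocks (1 + -(aᴴ * a + cᴴ * c)) (0 + -(aᴴ * b + cᴴ * d))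
        (0 + -(bᴴ * a + dᴴ * c)) (1 + -(bᴴ * b + dᴴ * d))).submatrix Sum.inr Sum.inr =
          1 + -(bᴴ * b + dᴴ * d) from by ext i j; simp [fromBlocks]]
        abel
      rw [Con, e]
      exact h1.add h2
    have hc : Con cᴴ := by
      apply Con.conj
      have h1 := hU.submatrix (Sum.inl : ι → ι ⊕ ι)
      have h2 := posSemidef_conjTranspose_mul_self a
      have e : 1 - cᴴ * c = (fromBlocks (1 + -(aᴴ * a + cᴴ * c)) (0 + -(aᴴ * b + cᴴ * d))
        (0 + -(bᴴ * a + dᴴ * c)) (1 + -(bᴴ * b + dᴴ * d))).submatrix Sum.inl Sum.inl +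
          aᴴ * a := by
        rw [show (fromBlocks (1 + -(aᴴ * a + cᴴ * c)) (0 + -(aᴴ * b + cᴴ * d))
        (0 + -(bᴴ * a + dᴴ * c)) (1 + -(bᴴ * b + dᴴ * d))).submatrix Sum.inl Sum.inl =
          1 + -(aᴴ * a + cᴴ * c) from by ext i j; simp [fromBlocks]]
        abel
      rw [Con, e]
      exact h1.add h2
    have e : rt ((fromBlocks a b c d)ᴴ * dil A) = rt (cᴴᴴ * A) + rt (bᴴ * A) := by
      rw [dil, fromBlocks_conjTranspose, fromBlocks_multiply, rt_fromBlocks]
      simp only [Matrix.mul_zero, zero_add, add_zero]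
      congr 1
      rw [← rt_conj (cᴴ * Aᴴ), conjTranspose_mul, conjTranspose_conjTranspose,
        conjTranspose_conjTranspose, rt_mul_comm]
    rw [e]
    have h1 := le_tn hc A
    have h2 := le_tn hb A
    linarith
  · have : tn A ≤ tn (dil A) / 2 := by
      apply tn_le
      intro U hU
      have h1 := le_tn (con_block hU hU.conj) (dil A)
      have e : rt ((fromBlocks 0 U Uᴴ 0)ᴴ * dil A) = 2 * rt (Uᴴ * A) := by
        rw [dil, fromBlocks_conjTranspose, fromBlocks_multiply, rt_fromBlocks]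
        simp only [Matrix.mul_zero, zero_add, add_zero, conjTranspose_conjTranspose]
        have : rt (U * Aᴴ) = rt (Uᴴ * A) := by
          rw [← rt_conj, conjTranspose_mul, conjTranspose_conjTranspose, rt_mul_comm]
        rw [this]
        ring
      rw [e] at h1
      linarith
    linarith

theorem matrix_grid {n m : ℕ} (hn : 1 ≤ n) (hm : 1 ≤ m) {s D : ℝ} (hs : 0 ≤ s) (hD : 0 ≤ D)
    (g : (Fin n → Fin (m + 1)) → Matrix ι ι ℂ)
    (hlow : ∀ x y, s * gridDist x y ≤ tn (g x - g y))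
    (hup : ∀ x y, tn (g x - g y) ≤ D * gridDist x y) :
    s / 120 * min (m : ℝ) (Real.sqrt n) ≤ D := by
  have h := herm_grid hn hm (s := 2 * s) (D := 2 * D) (by positivity) (by positivity)
    (fun x => dil (g x)) (fun x => dil_herm _)
    (by
      intro x y
      rw [dil_sub, tn_dil]
      have := hlow x y
      linarith)
    (by
      intro x y
      rw [dil_sub, tn_dil]
      have := hup x y
      linarith)
  linarith

end Pool.Agent.H47.S1
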