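import Mathlib

/-!
# The trace norm of complex matrices and its smoothing `tr √(A*A+ε²)`
-/

open Matrix
open scoped ComplexOrder

namespace Pool.Agent.H47.S1

variable {ι : Type*} [Fintype ι] [DecidableEq ι]

/-- The real part of the trace. -/
noncomputable def rt (A : Matrix ι ι ℂ) : ℝ := (trace A).re

omit [DecidableEq ι] in
theorem rt_add (A B : Matrix ι ι ℂ) : rt (A + B) = rt A + rt B := by simp [rt]

omit [DecidableEq ι] in
theorem rt_sub (A B : Matrix ι ι ℂ) : rt (A - B) = rt A - rt B := by simp [rt]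

omit [DecidableEq ι] in
theorem rt_neg (A : Matrix ι ι ℂ) : rt (-A) = -rt A := by simp [rt]

omit [DecidableEq ι] in
theorem rt_zero : rt (0 : Matrix ι ι ℂ) = 0 := by simp [rt]

omit [DecidableEq ι] in
theorem rt_smul (r : ℝ) (A : Matrix ι ι ℂ) : rt ((r : ℂ) • A) = r * rt A := by simp [rt]

omit [DecidableEq ι] in
theorem rt_mul_comm (A B : Matrix ι ι ℂ) : rt (A * B) = rt (B * A) := by
  rw [rt, rt, trace_mul_comm]

omit [DecidableEq ι] in
theorem rt_conj (A : Matrix ι ι ℂ) : rt Aᴴ = rt A := by simp [rt, trace_conjTranspose]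

omit [DecidableEq ι] in
theorem rt_sum {Ω : Type*} (s : Finset Ω) (A : Ω → Matrix ι ι ℂ) :
    rt (∑ w ∈ s, A w) = ∑ w ∈ s, rt (A w) := by
  simp only [rt, trace_sum, Complex.re_sum]

omit [DecidableEq ι] in
theorem rt_nonneg {A : Matrix ι ι ℂ} (hA : A.PosSemidef) : 0 ≤ rt A :=
  (Complex.nonneg_iff.mp hA.trace_nonneg).1

theorem exists_spec {A : Matrix ι ι ℂ} (hA : A.IsHermitian) :
    ∃ (Q : Matrix ι ι ℂ) (d : ι → ℝ), Q * Qᴴ = 1 ∧ Qᴴ * Q = 1 ∧
      A = Q * diagonal (fun i => (d i : ℂ)) * Qᴴ := by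
  refine ⟨hA.eigenvectorUnitary, hA.eigenvalues, ?_, ?_, ?_⟩
  · have := Unitary.coe_mul_star_self hA.eigenvectorUnitary
    simpa [star_eq_conjTranspose] using this
  · have := Unitary.coe_star_mul_self hA.eigenvectorUnitary
    simpa [star_eq_conjTranspose] using this
  · have := hA.spectral_theorem
    rw [Unitary.conjStarAlgAut_apply] at this
    exact this

theorem exists_sqrt {P : Matrix ι ι ℂ} (hP : P.PosDef) :
    ∃ H : Matrix ι ι ℂ, H.PosDef ∧ H * H = P := by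
  obtain ⟨Q, d, h1, h2, h3⟩ := exists_spec hP.isHermitian
  have hd : ∀ i, 0 < d i := by
    have hD : (Qᴴ * P * Q).PosDef := by
      apply hP.conjTranspose_mul_mul_same
      intro x y hxy
      have := congrArg (fun z => Qᴴ *ᵥ z) hxy
      simpa [mulVec_mulVec, h2] using this
    have e : Qᴴ * P * Q = diagonal (fun i => (d i : ℂ)) := by
      rw [h3]
      calc Qᴴ * (Q * diagonal (fun i => (d i : ℂ)) * Qᴴ) * Q
          = (Qᴴ * Q) * diagonal (fun i => (d i : ℂ)) * (Qᴴ * Q) := by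
            simp only [Matrix.mul_assoc]
        _ = _ := by rw [h2]; simp
    rw [e, posDef_diagonal_iff] at hD
    intro i
    exact_mod_cast hD i
  refine ⟨Q * diagonal (fun i => ((Real.sqrt (d i) : ℝ) : ℂ)) * Qᴴ, ?_, ?_⟩
  · have hD : (diagonal (fun i => ((Real.sqrt (d i) : ℝ) : ℂ))).PosDef := by
      rw [posDef_diagonal_iff]
      intro i
      exact_mod_cast Real.sqrt_pos.mpr (hd i)
    apply hD.mul_mul_conjTranspose_same
    intro x y hxy
    have := congrArg (fun z => z ᵥ* Qᴴ) hxy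
    simpa [vecMul_vecMul, h1] using this
  · calc Q * diagonal (fun i => ((Real.sqrt (d i) : ℝ) : ℂ)) * Qᴴ *
          (Q * diagonal (fun i => ((Real.sqrt (d i) : ℝ) : ℂ)) * Qᴴ)
        = Q * diagonal (fun i => ((Real.sqrt (d i) : ℝ) : ℂ)) * (Qᴴ * Q) *
          diagonal (fun i => ((Real.sqrt (d i) : ℝ) : ℂ)) * Qᴴ := by
          simp only [Matrix.mul_assoc]
      _ = Q * (diagonal (fun i => ((Real.sqrt (d i) : ℝ) : ℂ)) *
          diagonal (fun i => ((Real.sqrt (d i) : ℝ) : ℂ))) * Qᴴ := by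
          rw [h2, Matrix.mul_one, Matrix.mul_assoc Q]
      _ = P := by
          rw [diagonal_mul_diagonal]
          have : (fun i => ((Real.sqrt (d i) : ℝ) : ℂ) * ((Real.sqrt (d i) : ℝ) : ℂ)) =
              fun i => (d i : ℂ) := by
            funext i
            rw [← Complex.ofReal_mul, Real.mul_self_sqrt (hd i).le]
          rw [this, h3]

theorem rt_mul_nonneg {P R : Matrix ι ι ℂ} (hP : P.PosSemidef) (hR : R.PosSemidef) :
    0 ≤ rt (P * R) := by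
  obtain ⟨B, rfl⟩ : ∃ B : Matrix ι ι ℂ, R = Bᴴ * B := by
    open scoped MatrixOrder in
    exact CStarAlgebra.nonneg_iff_eq_star_mul_self.mp hR.nonneg
  rw [← Matrix.mul_assoc, rt_mul_comm, ← Matrix.mul_assoc]
  exact rt_nonneg (hP.mul_mul_conjTranspose_same B)

theorem amgm {H : Matrix ι ι ℂ} (hH : H.PosDef) (U A : Matrix ι ι ℂ) :
    2 * rt (Uᴴ * A) ≤ rt (U * H * Uᴴ) + rt (A * H⁻¹ * Aᴴ) := by
  have hu : IsUnit H.det := (Matrix.isUnit_iff_isUnit_det H).mp hH.isUnit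
  have hi : (H⁻¹)ᴴ = H⁻¹ := hH.inv.isHermitian
  have hs : Hᴴ = H := hH.isHermitian
  have key := rt_nonneg (hH.posSemidef.mul_mul_conjTranspose_same (U - A * H⁻¹))
  have e : (U - A * H⁻¹) * H * (U - A * H⁻¹)ᴴ =
      U * H * Uᴴ - U * Aᴴ - A * Uᴴ + A * H⁻¹ * Aᴴ := by
    rw [conjTranspose_sub, conjTranspose_mul, hi]
    have e1 : A * H⁻¹ * H = A := by
      rw [Matrix.mul_assoc, Matrix.nonsing_inv_mul _ hu, Matrix.mul_one]
    have e2 : H * (H⁻¹ * Aᴴ) = Aᴴ := by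
      rw [← Matrix.mul_assoc, Matrix.mul_nonsing_inv _ hu, Matrix.one_mul]
    rw [sub_mul, e1, mul_sub, sub_mul, sub_mul, Matrix.mul_assoc U H (H⁻¹ * Aᴴ), e2,
      ← Matrix.mul_assoc A H⁻¹ Aᴴ]
    abel
  rw [e, rt_add, rt_sub, rt_sub] at key
  have e3 : rt (U * Aᴴ) = rt (Uᴴ * A) := by
    rw [← rt_conj, conjTranspose_mul, conjTranspose_conjTranspose, rt_mul_comm]
  have e4 : rt (A * Uᴴ) = rt (Uᴴ * A) := rt_mul_comm _ _
  rw [e3, e4] at key
  linarith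

/-- `A*A + ε²`. -/
noncomputable def P2 (ε : ℝ) (A : Matrix ι ι ℂ) : Matrix ι ι ℂ :=
  Aᴴ * A + ((ε ^ 2 : ℝ) : ℂ) • (1 : Matrix ι ι ℂ)

theorem P2_posDef {ε : ℝ} (hε : 0 < ε) (A : Matrix ι ι ℂ) : (P2 ε A).PosDef := by
  apply Matrix.PosDef.posSemidef_add (posSemidef_conjTranspose_mul_self A)
  have h1 : (1 : Matrix ι ι ℂ).PosDef := Matrix.PosDef.one
  have h2 : (0 : ℂ) < ((ε ^ 2 : ℝ) : ℂ) := by exact_mod_cast pow_pos hε 2
  exact h1.smul h2

/-- `√(A*A+ε²)`. -/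
noncomputable def S {ε : ℝ} (hε : 0 < ε) (A : Matrix ι ι ℂ) : Matrix ι ι ℂ :=
  Classical.choose (exists_sqrt (P2_posDef hε A))

variable {ε : ℝ} (hε : 0 < ε)

theorem S_posDef (A : Matrix ι ι ℂ) : (S hε A).PosDef :=
  (Classical.choose_spec (exists_sqrt (P2_posDef hε A))).1

theorem S_mul_S (A : Matrix ι ι ℂ) : S hε A * S hε A = P2 ε A :=
  (Classical.choose_spec (exists_sqrt (P2_posDef hε A))).2

/-- `tr √(A*A+ε²)`. -/
noncomputable def Phi (A : Matrix ι ι ℂ) : ℝ := rt (S hε A)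

/-- The two parts of the norming column contraction. -/
noncomputable def Uo (A : Matrix ι ι ℂ) : Matrix ι ι ℂ := A * (S hε A)⁻¹

/-- The two parts of the norming column contraction. -/
noncomputable def Vo (A : Matrix ι ι ℂ) : Matrix ι ι ℂ := (ε : ℂ) • (S hε A)⁻¹

theorem S_isUnit (A : Matrix ι ι ℂ) : IsUnit (S hε A).det :=
  (Matrix.isUnit_iff_isUnit_det _).mp (S_posDef hε A).isUnit

theorem S_inv_herm (A : Matrix ι ι ℂ) : ((S hε A)⁻¹)ᴴ = (S hε A)⁻¹ :=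
  (S_posDef hε A).inv.isHermitian

theorem inv_P2_inv (A : Matrix ι ι ℂ) : (S hε A)⁻¹ * P2 ε A = S hε A := by
  rw [← S_mul_S hε A, ← Matrix.mul_assoc, Matrix.nonsing_inv_mul _ (S_isUnit hε A),
    Matrix.one_mul]

theorem Uo_Vo (A : Matrix ι ι ℂ) : (Uo hε A)ᴴ * Uo hε A + (Vo hε A)ᴴ * Vo hε A = 1 := by
  have e : (Uo hε A)ᴴ * Uo hε A + (Vo hε A)ᴴ * Vo hε A =
      (S hε A)⁻¹ * P2 ε A * (S hε A)⁻¹ := by
    rw [Uo, Vo, conjTranspose_mul, conjTranspose_smul, S_inv_herm, P2]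
    simp only [Matrix.mul_add, Matrix.add_mul, Matrix.mul_assoc, Matrix.smul_mul,
      Matrix.mul_smul, Matrix.one_mul, Complex.star_def, Complex.conj_ofReal, smul_smul]
    rw [pow_two, Complex.ofReal_mul]
  rw [e, inv_P2_inv, Matrix.mul_nonsing_inv _ (S_isUnit hε A)]

theorem attain (A : Matrix ι ι ℂ) :
    (Uo hε A)ᴴ * A + (ε : ℂ) • (Vo hε A)ᴴ = S hε A := by
  have e : (Uo hε A)ᴴ * A + (ε : ℂ) • (Vo hε A)ᴴ = (S hε A)⁻¹ * P2 ε A := by
    rw [Uo, Vo, conjTranspose_mul, conjTranspose_smul, S_inv_herm, P2]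
    simp only [Matrix.mul_add, Matrix.mul_assoc, Matrix.mul_smul, Matrix.mul_one,
      Complex.star_def, Complex.conj_ofReal, smul_smul]
    rw [pow_two, Complex.ofReal_mul]
  rw [e, inv_P2_inv]

/-- The master inequality. -/
theorem master {H : Matrix ι ι ℂ} (hH : H.PosDef) (U V A : Matrix ι ι ℂ)
    (hUV : (1 - (Uᴴ * U + Vᴴ * V)).PosSemidef) :
    2 * (rt (Uᴴ * A) + ε * rt V) ≤ rt H + rt (H⁻¹ * P2 ε A) := by
  have h1 := amgm hH U A
  have h2 := amgm hH V ((ε : ℂ) • (1 : Matrix ι ι ℂ))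
  have h3 := rt_mul_nonneg hH.posSemidef hUV
  have e1 : rt (U * H * Uᴴ) + rt (V * H * Vᴴ) = rt (H * (Uᴴ * U + Vᴴ * V)) := by
    rw [Matrix.mul_add, rt_add]
    congr 1
    · rw [Matrix.mul_assoc, rt_mul_comm, Matrix.mul_assoc]
    · rw [Matrix.mul_assoc, rt_mul_comm, Matrix.mul_assoc]
  have e2 : rt (A * H⁻¹ * Aᴴ) + rt (((ε : ℂ) • (1 : Matrix ι ι ℂ)) * H⁻¹ *
      ((ε : ℂ) • (1 : Matrix ι ι ℂ))ᴴ) = rt (H⁻¹ * P2 ε A) := by
    rw [P2, Matrix.mul_add, rt_add]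
    congr 1
    · rw [Matrix.mul_assoc, rt_mul_comm, Matrix.mul_assoc]
    · simp only [conjTranspose_smul, conjTranspose_one, Matrix.smul_mul, Matrix.one_mul,
        Matrix.mul_smul, Matrix.mul_one, Complex.star_def, Complex.conj_ofReal, smul_smul]
      rw [pow_two, Complex.ofReal_mul]
  have e3 : rt (Vᴴ * ((ε : ℂ) • (1 : Matrix ι ι ℂ))) = ε * rt V := by
    rw [Matrix.mul_smul, Matrix.mul_one, rt_smul, rt_conj]
  rw [Matrix.mul_sub, Matrix.mul_one, rt_sub] at h3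
  rw [e3] at h2
  linarith

theorem dual (U V A : Matrix ι ι ℂ) (hUV : (1 - (Uᴴ * U + Vᴴ * V)).PosSemidef) :
    rt (Uᴴ * A) + ε * rt V ≤ Phi hε A := by
  have h := master (ε := ε) (S_posDef hε A) U V A hUV
  rw [inv_P2_inv] at h
  rw [Phi]
  linarith

theorem Phi_eq (A : Matrix ι ι ℂ) :
    Phi hε A = rt ((Uo hε A)ᴴ * A) + ε * rt (Vo hε A) := by
  rw [Phi, ← attain hε A, rt_add, rt_smul, rt_conj (Vo hε A)]

theorem mm {H : Matrix ι ι ℂ} (hH : H.PosDef) (A : Matrix ι ι ℂ) :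
    2 * Phi hε A ≤ rt H + rt (H⁻¹ * P2 ε A) := by
  rw [Phi_eq]
  apply master hH
  rw [Uo_Vo, sub_self]
  exact Matrix.PosSemidef.zero

end Pool.Agent.H47.S1
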