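import Pool.Agent.H47.S1.GridMat

/-!
# The trace class norm of operators and its finite compressions
-/

open Matrix Filter
open scoped ComplexOrder InnerProductSpace ENNReal Topology

namespace Pool.Agent.H47.S1

variable {β : Type*} {H : Type*} [NormedAddCommGroup H] [InnerProductSpace ℂ H] [CompleteSpace H]

/-- `tr |T|`, computed in an orthonormal basis. -/
noncomputable def traceNorm (b : HilbertBasis β ℂ H) (T : H →L[ℂ] H) : ℝ≥0∞ :=
  ∑' k, ENNReal.ofReal (⟪b k, CFC.abs T (b k)⟫_ℂ).re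

/-! ### Hilbert–Schmidt sums -/

/-- The Hilbert–Schmidt sum. -/
noncomputable def hs (b : HilbertBasis β ℂ H) (X : H →L[ℂ] H) : ℝ≥0∞ :=
  ∑' k, ENNReal.ofReal (‖X (b k)‖ ^ 2)

omit [CompleteSpace H] in
theorem parseval (b : HilbertBasis β ℂ H) (y : H) :
    ENNReal.ofReal (‖y‖ ^ 2) = ∑' i, ENNReal.ofReal (‖⟪b i, y⟫_ℂ‖ ^ 2) := by
  have h := b.hasSum_inner_mul_inner y y
  have h1 : HasSum (fun i => ‖⟪b i, y⟫_ℂ‖ ^ 2) (‖y‖ ^ 2) := by
    have h2 := Complex.hasSum_re h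
    have e1 : ∀ i, (⟪y, b i⟫_ℂ * ⟪b i, y⟫_ℂ).re = ‖⟪b i, y⟫_ℂ‖ ^ 2 := by
      intro i
      rw [← inner_conj_symm y (b i), Complex.conj_mul']
      norm_cast
    have e2 : (⟪y, y⟫_ℂ).re = ‖y‖ ^ 2 := by
      rw [inner_self_eq_norm_sq_to_K]
      norm_cast
    simp only [e1, e2] at h2
    exact h2
  rw [← h1.tsum_eq, ENNReal.ofReal_tsum_of_nonneg (fun i => by positivity) h1.summable]

theorem hs_star (b : HilbertBasis β ℂ H) (X : H →L[ℂ] H) : hs b (star X) = hs b X := by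
  rw [hs, hs]
  simp only [parseval b]
  rw [ENNReal.tsum_comm]
  refine tsum_congr fun i => tsum_congr fun k => ?_
  congr 2
  rw [ContinuousLinearMap.star_eq_adjoint, ContinuousLinearMap.adjoint_inner_right,
    ← inner_conj_symm, RCLike.norm_conj]

omit [CompleteSpace H] in
theorem hs_mul_le (b : HilbertBasis β ℂ H) {C : H →L[ℂ] H} (hC : ∀ x, ‖C x‖ ≤ ‖x‖)
    (X : H →L[ℂ] H) : hs b (C * X) ≤ hs b X := by
  refine ENNReal.tsum_le_tsum fun k => ENNReal.ofReal_le_ofReal ?_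
  have := hC (X (b k))
  have h0 := norm_nonneg (C (X (b k)))
  rw [mul_apply_eq_comp]
  nlinarith

omit [CompleteSpace H] in
theorem sum_le_hs (b : HilbertBasis β ℂ H) (X : H →L[ℂ] H) (s : Finset β) :
    ENNReal.ofReal (∑ k ∈ s, ‖X (b k)‖ ^ 2) ≤ hs b X := by
  rw [ENNReal.ofReal_sum_of_nonneg fun k _ => by positivity]
  exact ENNReal.sum_le_tsum s

/-! ### The modulus -/

/-- the resolvent -/
theorem exists_res {A : H →L[ℂ] H} (hA : 0 ≤ A) {δ : ℝ} (hδ : 0 < δ) :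
    ∃ G : H →L[ℂ] H, (∀ x, A (G x) + (δ : ℂ) • G x = x) ∧
      (∀ x, G (A x) + (δ : ℂ) • G x = x) := by
  have hpos := (ContinuousLinearMap.nonneg_iff_isPositive A).mp hA
  obtain ⟨B, hB⟩ : ∃ B : H →L[ℂ] H, B = A + (δ : ℂ) • (1 : H →L[ℂ] H) := ⟨_, rfl⟩
  have hBx : ∀ x, B x = A x + (δ : ℂ) • x := fun x => by rw [hB]; simp
  have hu : IsUnit B := by
    apply ContinuousLinearMap.isUnit_of_forall_le_norm_inner_map B (c := ⟨δ, hδ.le⟩)
      (by exact_mod_cast hδ)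
    intro x
    have h1 : 0 ≤ (⟪A x, x⟫_ℂ).re := hpos.re_inner_nonneg_left x
    have h2 : (⟪B x, x⟫_ℂ).re = (⟪A x, x⟫_ℂ).re + δ * ‖x‖ ^ 2 := by
      rw [hBx, inner_add_left, inner_smul_left, inner_self_eq_norm_sq_to_K, Complex.conj_ofReal,
        Complex.add_re, Complex.re_ofReal_mul]
      norm_cast
    calc ‖x‖ ^ 2 * ((⟨δ, hδ.le⟩ : NNReal) : ℝ) = δ * ‖x‖ ^ 2 := by
          rw [mul_comm]
      _ ≤ (⟪B x, x⟫_ℂ).re := by rw [h2]; linarith
      _ ≤ ‖⟪B x, x⟫_ℂ‖ := Complex.re_le_norm _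
  obtain ⟨u, hu⟩ := hu
  refine ⟨((u⁻¹ : (H →L[ℂ] H)ˣ) : H →L[ℂ] H), fun x => ?_, fun x => ?_⟩
  · rw [← hBx, ← mul_apply_eq_comp, ← hu, Units.mul_inv]
    rfl
  · have : ((u⁻¹ : (H →L[ℂ] H)ˣ) : H →L[ℂ] H) (B x) = x := by
      rw [← mul_apply_eq_comp, ← hu, Units.inv_mul]
      rfl
    rw [hBx, map_add, map_smul] at this
    exact this

theorem abs_nonneg' (T : H →L[ℂ] H) : 0 ≤ CFC.abs T := CFC.abs_nonneg T

theorem norm_abs (T : H →L[ℂ] H) (x : H) : ‖CFC.abs T x‖ = ‖T x‖ := by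
  have hs : star (CFC.abs T) = CFC.abs T := (IsSelfAdjoint.of_nonneg (CFC.abs_nonneg T)).star_eq
  have h1 : ⟪CFC.abs T x, CFC.abs T x⟫_ℂ = ⟪T x, T x⟫_ℂ := by
    calc ⟪CFC.abs T x, CFC.abs T x⟫_ℂ = ⟪star (CFC.abs T) x, CFC.abs T x⟫_ℂ := by rw [hs]
      _ = ⟪x, CFC.abs T (CFC.abs T x)⟫_ℂ := by
          rw [ContinuousLinearMap.star_eq_adjoint, ContinuousLinearMap.adjoint_inner_left]
      _ = ⟪x, (CFC.abs T * CFC.abs T) x⟫_ℂ := rfl
      _ = ⟪x, (star T * T) x⟫_ℂ := by rw [CFC.abs_mul_abs]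
      _ = ⟪x, star T (T x)⟫_ℂ := rfl
      _ = ⟪T x, T x⟫_ℂ := by
          rw [ContinuousLinearMap.star_eq_adjoint, ContinuousLinearMap.adjoint_inner_right]
  rw [inner_self_eq_norm_sq_to_K, inner_self_eq_norm_sq_to_K] at h1
  have h2 : ‖CFC.abs T x‖ ^ 2 = ‖T x‖ ^ 2 := by exact_mod_cast h1
  exact (pow_left_inj₀ (norm_nonneg _) (norm_nonneg _) (by norm_num)).mp h2

/-- `C = T (|T|+δ)⁻¹` is a contraction. -/
theorem exists_polar (T : H →L[ℂ] H) {δ : ℝ} (hδ : 0 < δ) :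
    ∃ C : H →L[ℂ] H, (∀ x, ‖C x‖ ≤ ‖x‖) ∧
      (∀ x, T x = C (CFC.abs T x) + (δ : ℂ) • C x) ∧
      (∀ x, (⟪x, CFC.abs T x⟫_ℂ).re - δ * ‖x‖ ^ 2 ≤ (⟪C x, T x⟫_ℂ).re) := by
  obtain ⟨A, hA⟩ : ∃ A, A = CFC.abs T := ⟨_, rfl⟩
  have hA0 : 0 ≤ A := by rw [hA]; exact CFC.abs_nonneg T
  have hpos := (ContinuousLinearMap.nonneg_iff_isPositive A).mp hA0
  have hnorm : ∀ x, ‖A x‖ = ‖T x‖ := by rw [hA]; exact norm_abs T
  have hsym : ∀ x y, ⟪A x, y⟫_ℂ = ⟪x, A y⟫_ℂ := fun x y => hpos.inner_left_eq_inner_right x y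
  have hTT : ∀ x y, ⟪T x, T y⟫_ℂ = ⟪A x, A y⟫_ℂ := by
    intro x y
    calc ⟪T x, T y⟫_ℂ = ⟪x, star T (T y)⟫_ℂ := by
          rw [ContinuousLinearMap.star_eq_adjoint, ContinuousLinearMap.adjoint_inner_right]
      _ = ⟪x, (star T * T) y⟫_ℂ := rfl
      _ = ⟪x, (A * A) y⟫_ℂ := by rw [hA, CFC.abs_mul_abs]
      _ = ⟪x, A (A y)⟫_ℂ := rfl
      _ = ⟪A x, A y⟫_ℂ := (hsym _ _).symm
  rw [← hA]
  obtain ⟨G, hG1, hG2⟩ := exists_res hA0 hδ
  have hG0 : ∀ x, 0 ≤ (⟪G x, x⟫_ℂ).re := by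
    intro x
    have h1 : ⟪G x, x⟫_ℂ = ⟪G x, A (G x)⟫_ℂ + (δ : ℂ) * ⟪G x, G x⟫_ℂ := by
      conv_lhs => rw [← hG1 x, inner_add_right, inner_smul_right, hG1 x]
    rw [h1, Complex.add_re, Complex.re_ofReal_mul, inner_self_eq_norm_sq_to_K]
    have h2 := hpos.re_inner_nonneg_right (G x)
    have h3 : (((‖G x‖ : ℝ) : ℂ) ^ 2).re = ‖G x‖ ^ 2 := by norm_cast
    have h4 : 0 ≤ δ * (((‖G x‖ : ℝ) : ℂ) ^ 2).re := by rw [h3]; positivity
    exact add_nonneg h2 h4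
  refine ⟨T * G, fun x => ?_, fun x => ?_, fun x => ?_⟩
  · rw [mul_apply_eq_comp, ← hnorm]
    have h1 : ‖x‖ ^ 2 = ‖A (G x)‖ ^ 2 + 2 * (δ * (⟪A (G x), G x⟫_ℂ).re) +
        ‖(δ : ℂ) • G x‖ ^ 2 := by
      conv_lhs => rw [← hG1 x]
      rw [@norm_add_sq ℂ, inner_smul_right]
      congr 3
      exact Complex.re_ofReal_mul _ _
    have h2 : 0 ≤ (⟪A (G x), G x⟫_ℂ).re := hpos.re_inner_nonneg_left (G x)
    have h3 : ‖A (G x)‖ ^ 2 ≤ ‖x‖ ^ 2 := by
      rw [h1]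
      have : 0 ≤ δ * (⟪A (G x), G x⟫_ℂ).re := by positivity
      nlinarith [sq_nonneg ‖(δ : ℂ) • G x‖]
    exact (pow_le_pow_iff_left₀ (norm_nonneg _) (norm_nonneg _) (by norm_num)).mp h3
  · rw [mul_apply_eq_comp, mul_apply_eq_comp, ← map_smul, ← map_add,
      hG2]
  · rw [mul_apply_eq_comp, hTT]
    have h1 : A (G x) = x - (δ : ℂ) • G x := by rw [eq_sub_iff_add_eq]; exact hG1 x
    have h2 : ⟪A (G x), A x⟫_ℂ = ⟪x, A x⟫_ℂ - (δ : ℂ) * ⟪x, x⟫_ℂ +
        (δ : ℂ) * ((δ : ℂ) * ⟪G x, x⟫_ℂ) := by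
      rw [h1, inner_sub_left, inner_smul_left, Complex.conj_ofReal, ← hsym (G x) x, h1,
        inner_sub_left, inner_smul_left, Complex.conj_ofReal]
      ring
    rw [h2, Complex.add_re, Complex.sub_re, Complex.re_ofReal_mul, Complex.re_ofReal_mul,
      Complex.re_ofReal_mul, inner_self_eq_norm_sq_to_K]
    have h3 : (((‖x‖ : ℝ) : ℂ) ^ 2).re = ‖x‖ ^ 2 := by norm_cast
    have h4 := hG0 x
    have h5 : 0 ≤ δ * (δ * (⟪G x, x⟫_ℂ).re) := by positivity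
    have h6 : δ * (((‖x‖ : ℝ) : ℂ) ^ 2).re = δ * ‖x‖ ^ 2 := by rw [h3]
    have h7 : (⟪x, A x⟫_ℂ).re - δ * ‖x‖ ^ 2 + δ * (δ * (⟪G x, x⟫_ℂ).re) =
      (⟪x, A x⟫_ℂ).re - δ * (((‖x‖ : ℝ) : ℂ) ^ 2).re + δ * (δ * (⟪G x, x⟫_ℂ).re) := by rw [h6]
    refine le_trans ?_ h7.le
    linarith

theorem exists_root (T : H →L[ℂ] H) :
    ∃ R : H →L[ℂ] H, star R = R ∧ (∀ x, R (R x) = CFC.abs T x) := by
  have h0 : 0 ≤ CFC.abs T := CFC.abs_nonneg T
  refine ⟨CFC.sqrt (CFC.abs T), (IsSelfAdjoint.of_nonneg (CFC.sqrt_nonneg _)).star_eq, ?_⟩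
  intro x
  rw [← mul_apply_eq_comp, CFC.sqrt_mul_sqrt_self _ h0]

/-! ### Compressions -/

/-- The matrix of `T` on the span of the basis vectors in `s`. -/
noncomputable def cmp (b : HilbertBasis β ℂ H) (s : Finset β) (T : H →L[ℂ] H) :
    Matrix s s ℂ := fun i j => ⟪b i, T (b j)⟫_ℂ

omit [CompleteSpace H] in
theorem cmp_sub (b : HilbertBasis β ℂ H) (s : Finset β) (T R : H →L[ℂ] H) :
    cmp b s (T - R) = cmp b s T - cmp b s R := by
  ext i j
  simp [cmp]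

section
variable [DecidableEq β]

theorem col_le {ι : Type*} [Fintype ι] [DecidableEq ι] {U : Matrix ι ι ℂ} (h : Con U) (j : ι) :
    ∑ i, ‖U i j‖ ^ 2 ≤ 1 := by
  have h1 := h.diag_nonneg (i := j)
  rw [Matrix.sub_apply, Matrix.one_apply_eq, Matrix.mul_apply] at h1
  have h2 : ∑ k, (Uᴴ j k * U k j) = ((∑ k, ‖U k j‖ ^ 2 : ℝ) : ℂ) := by
    push_cast
    apply Finset.sum_congr rfl
    intro k _
    rw [conjTranspose_apply, Complex.star_def, Complex.conj_mul']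
  rw [h2] at h1
  have : (0 : ℂ) ≤ (((1 - ∑ k, ‖U k j‖ ^ 2 : ℝ)) : ℂ) := by
    push_cast
    push_cast at h1
    exact h1
  have := Complex.zero_le_real.mp this
  linarith

omit [CompleteSpace H] [DecidableEq β] in
theorem norm_sum_sq (b : HilbertBasis β ℂ H) (s : Finset β) (a : s → ℂ) :
    ‖∑ i : s, a i • b i‖ ^ 2 = ∑ i, ‖a i‖ ^ 2 := by
  have ho : Orthonormal ℂ (fun i : s => b i) := b.orthonormal.comp _ Subtype.coe_injective
  have h := ho.inner_sum a a Finset.univ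
  rw [inner_self_eq_norm_sq_to_K] at h
  have h2 : ∑ i, (starRingEnd ℂ) (a i) * a i = ((∑ i, ‖a i‖ ^ 2 : ℝ) : ℂ) := by
    push_cast
    refine Finset.sum_congr rfl fun i _ => ?_
    rw [Complex.conj_mul']
  rw [h2] at h
  apply Complex.ofReal_injective
  rw [← h]
  push_cast
  rfl

theorem cmp_le (b : HilbertBasis β ℂ H) (s : Finset β) (T : H →L[ℂ] H) :
    ENNReal.ofReal (tn (cmp b s T)) ≤ traceNorm b T := by
  by_cases hfin : traceNorm b T = ⊤
  · rw [hfin]; exact le_top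
  obtain ⟨τ, hτ⟩ : ∃ τ : ℝ, τ = (traceNorm b T).toReal := ⟨_, rfl⟩
  have hτ0 : 0 ≤ τ := by rw [hτ]; exact ENNReal.toReal_nonneg
  have hτ' : traceNorm b T = ENNReal.ofReal τ := by rw [hτ, ENNReal.ofReal_toReal hfin]
  rw [hτ', ENNReal.ofReal_le_ofReal_iff hτ0]
  obtain ⟨R, hR1, hR2⟩ := exists_root T
  have hRsym : ∀ x y, ⟪R x, y⟫_ℂ = ⟪x, R y⟫_ℂ := by
    intro x y
    conv_lhs => rw [← hR1]
    rw [ContinuousLinearMap.star_eq_adjoint, ContinuousLinearMap.adjoint_inner_left]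
  have hRn : ∀ x, (⟪x, CFC.abs T x⟫_ℂ).re = ‖R x‖ ^ 2 := by
    intro x
    rw [← hR2, ← hRsym, inner_self_eq_norm_sq_to_K]
    norm_cast
  have hhsR : hs b R = ENNReal.ofReal τ := by
    rw [← hτ', hs, traceNorm]
    exact tsum_congr fun k => by rw [hRn]
  apply tn_le
  intro U hU
  have hfix : ∀ δ : ℝ, 0 < δ → rt (Uᴴ * cmp b s T) ≤ τ + δ * s.card := by
    intro δ hδ
    obtain ⟨C, hC1, hC2, -⟩ := exists_polar T hδ
    obtain ⟨u, hu⟩ : ∃ u : s → H, u = fun k => ∑ i : s, U i k • b i := ⟨_, rfl⟩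
    have hun : ∀ k, ‖u k‖ ≤ 1 := by
      intro k
      have h1 := norm_sum_sq b s (fun i => U i k)
      have h2 := col_le hU k
      have h3 : ‖u k‖ ^ 2 ≤ 1 := by rw [hu]; dsimp only; rw [h1]; exact h2
      nlinarith [norm_nonneg (u k)]
    have e1 : rt (Uᴴ * cmp b s T) = ∑ k : s, (⟪u k, T (b k)⟫_ℂ).re := by
      rw [rt_mul_eq]
      refine Finset.sum_congr rfl fun k _ => ?_
      rw [hu]
      dsimp only
      rw [sum_inner, Complex.re_sum]
      refine Finset.sum_congr rfl fun i _ => ?_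
      rw [inner_smul_left]
      rfl
    obtain ⟨X, hX⟩ : ∃ X : H →L[ℂ] H, X = R * star C := ⟨_, rfl⟩
    have hXs : star X = C * R := by rw [hX, star_mul, star_star, hR1]
    have hXhs : hs b X ≤ ENNReal.ofReal τ := by
      rw [← hs_star, hXs, ← hhsR]
      exact hs_mul_le b hC1 R
    have hX1 : ∑ i : s, ‖X (b i)‖ ^ 2 ≤ τ := by
      have h1 := (sum_le_hs b X s).trans hXhs
      rw [ENNReal.ofReal_le_ofReal_iff hτ0] at h1
      rwa [Finset.sum_coe_sort s (fun i => ‖X (b i)‖ ^ 2)]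
    have hR3 : ∑ i : s, ‖R (b i)‖ ^ 2 ≤ τ := by
      have h1 := (sum_le_hs b R s).trans hhsR.le
      rw [ENNReal.ofReal_le_ofReal_iff hτ0] at h1
      rwa [Finset.sum_coe_sort s (fun i => ‖R (b i)‖ ^ 2)]
    have hXu : ∑ k : s, ‖X (u k)‖ ^ 2 ≤ ∑ i : s, ‖X (b i)‖ ^ 2 := by
      obtain ⟨Γ, hΓ⟩ : ∃ Γ : Matrix s s ℂ, Γ = Matrix.gram ℂ (fun i : s => X (b i)) := ⟨_, rfl⟩
      have hΓp : Γ.PosSemidef := by rw [hΓ]; exact Matrix.posSemidef_gram ℂ _
      have h1 : ∀ k, ‖X (u k)‖ ^ 2 = ((Uᴴ * (Γ * U)) k k).re := by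
        intro k
        have h2 : ((‖X (u k)‖ ^ 2 : ℝ) : ℂ) = (Uᴴ * (Γ * U)) k k := by
          have h3 : ((‖X (u k)‖ ^ 2 : ℝ) : ℂ) = ⟪X (u k), X (u k)⟫_ℂ := by
            rw [inner_self_eq_norm_sq_to_K]
            push_cast
            rfl
          rw [h3, hu]
          dsimp only
          rw [map_sum, sum_inner, Matrix.mul_apply]
          refine Finset.sum_congr rfl fun i _ => ?_
          rw [inner_sum, conjTranspose_apply, Matrix.mul_apply, Finset.mul_sum]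
          refine Finset.sum_congr rfl fun j _ => ?_
          rw [map_smul, map_smul, inner_smul_left, inner_smul_right, hΓ, Matrix.gram_apply,
            Complex.star_def]
          ring
        rw [← h2, Complex.ofReal_re]
      have h2 : ∑ k : s, ‖X (u k)‖ ^ 2 = rt (Γ * (U * Uᴴ)) := by
        rw [← Matrix.mul_assoc, rt_mul_comm, rt, Matrix.trace, Complex.re_sum]
        exact Finset.sum_congr rfl fun k _ => h1 k
      have h3 : ∑ i : s, ‖X (b i)‖ ^ 2 = rt Γ := by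
        rw [rt, Matrix.trace, Complex.re_sum]
        refine Finset.sum_congr rfl fun i _ => ?_
        rw [Matrix.diag_apply, hΓ, Matrix.gram_apply, inner_self_eq_norm_sq_to_K]
        norm_cast
      have h4 := hU.conj
      rw [Con, conjTranspose_conjTranspose] at h4
      have h5 := rt_mul_nonneg hΓp h4
      rw [Matrix.mul_sub, Matrix.mul_one, rt_sub] at h5
      rw [h2, h3]
      linarith
    rw [e1]
    have hpt : ∀ k : s, (⟪u k, T (b k)⟫_ℂ).re ≤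
        (‖X (u k)‖ ^ 2 + ‖R (b k)‖ ^ 2) / 2 + δ := by
      intro k
      rw [hC2 (b k), inner_add_right, inner_smul_right, Complex.add_re, Complex.re_ofReal_mul]
      have h1 : ⟪u k, C (CFC.abs T (b k))⟫_ℂ = ⟪X (u k), R (b k)⟫_ℂ := by
        rw [← hR2, hX, mul_apply_eq_comp, hRsym,
          ContinuousLinearMap.star_eq_adjoint, ContinuousLinearMap.adjoint_inner_left]
      have h2 : (⟪X (u k), R (b k)⟫_ℂ).re ≤ (‖X (u k)‖ ^ 2 + ‖R (b k)‖ ^ 2) / 2 := by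
        have h3 := (Complex.re_le_norm _).trans (norm_inner_le_norm (𝕜 := ℂ) (X (u k)) (R (b k)))
        nlinarith [sq_nonneg (‖X (u k)‖ - ‖R (b k)‖)]
      have h4 : (⟪u k, C (b k)⟫_ℂ).re ≤ 1 := by
        have h5 := (Complex.re_le_norm _).trans (norm_inner_le_norm (𝕜 := ℂ) (u k) (C (b k)))
        have h6 := hC1 (b k)
        have h7 : ‖b (k : β)‖ = 1 := b.orthonormal.1 k
        rw [h7] at h6
        have h8 := hun k
        nlinarith [norm_nonneg (u k), norm_nonneg (C (b k))]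
      rw [h1]
      nlinarith
    calc ∑ k : s, (⟪u k, T (b k)⟫_ℂ).re ≤
          ∑ k : s, ((‖X (u k)‖ ^ 2 + ‖R (b k)‖ ^ 2) / 2 + δ) :=
          Finset.sum_le_sum fun k _ => hpt k
      _ = (∑ k : s, ‖X (u k)‖ ^ 2 + ∑ k : s, ‖R (b k)‖ ^ 2) / 2 + δ * s.card := by
          rw [Finset.sum_add_distrib, ← Finset.sum_div, Finset.sum_add_distrib, Finset.sum_const,
            Finset.card_univ, Fintype.card_coe, nsmul_eq_mul]
          ring
      _ ≤ τ + δ * s.card := by linarith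
  apply le_of_forall_pos_le_add
  intro η hη
  have hc : (0 : ℝ) < s.card + 1 := add_pos_of_nonneg_of_pos (Nat.cast_nonneg _) one_pos
  refine (hfix (η / (s.card + 1)) (div_pos hη hc)).trans ?_
  have : η / (s.card + 1) * s.card ≤ η := by
    rw [div_mul_eq_mul_div, div_le_iff₀ hc]
    nlinarith
  linarith

theorem con_of_vec {ι : Type*} [Fintype ι] [DecidableEq ι] {U : Matrix ι ι ℂ}
    (h : ∀ x : ι → ℂ, ∑ i, ‖(U *ᵥ x) i‖ ^ 2 ≤ ∑ i, ‖x i‖ ^ 2) : Con U := by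
  have hn : ∀ y : ι → ℂ, star y ⬝ᵥ y = ((∑ i, ‖y i‖ ^ 2 : ℝ) : ℂ) := by
    intro y
    push_cast
    rw [dotProduct]
    refine Finset.sum_congr rfl fun i _ => ?_
    rw [Pi.star_apply, Complex.star_def, Complex.conj_mul']
  apply Matrix.PosSemidef.of_dotProduct_mulVec_nonneg
  · rw [Matrix.IsHermitian, conjTranspose_sub, conjTranspose_one, conjTranspose_mul,
      conjTranspose_conjTranspose]
  · intro x
    have e : star x ⬝ᵥ ((1 - Uᴴ * U) *ᵥ x) =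
        (((∑ i, ‖x i‖ ^ 2) - ∑ i, ‖(U *ᵥ x) i‖ ^ 2 : ℝ) : ℂ) := by
      rw [Matrix.sub_mulVec, Matrix.one_mulVec, dotProduct_sub, hn, ← Matrix.mulVec_mulVec,
        dotProduct_mulVec, Matrix.vecMul_conjTranspose, star_star, hn]
      push_cast
      rfl
    rw [e]
    have := h x
    exact Complex.zero_le_real.mpr (by linarith)

theorem lt_cmp (b : HilbertBasis β ℂ H) (T : H →L[ℂ] H) {t : ℝ}
    (ht : ENNReal.ofReal t < traceNorm b T) : ∀ᶠ s : Finset β in atTop, t < tn (cmp b s T) := by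
  rw [traceNorm, ENNReal.tsum_eq_iSup_sum, lt_iSup_iff] at ht
  obtain ⟨K, hK⟩ := ht
  have hpos := (ContinuousLinearMap.nonneg_iff_isPositive _).mp (CFC.abs_nonneg T)
  have hnn : ∀ k, 0 ≤ (⟪b k, CFC.abs T (b k)⟫_ℂ).re := fun k => hpos.re_inner_nonneg_right _
  rw [← ENNReal.ofReal_sum_of_nonneg fun k _ => hnn k] at hK
  have hK' : t < ∑ k ∈ K, (⟪b k, CFC.abs T (b k)⟫_ℂ).re :=
    (ENNReal.ofReal_lt_ofReal_iff'.mp hK).1
  obtain ⟨σ, hσ⟩ : ∃ σ, σ = ∑ k ∈ K, (⟪b k, CFC.abs T (b k)⟫_ℂ).re := ⟨_, rfl⟩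
  rw [← hσ] at hK'
  have hc : (0 : ℝ) < K.card + 1 := by positivity
  obtain ⟨δ, hδ⟩ : ∃ δ : ℝ, δ = (σ - t) / (K.card + 1) := ⟨_, rfl⟩
  have hδ0 : 0 < δ := by rw [hδ]; exact div_pos (by linarith) hc
  have hδK : δ * K.card < σ - t := by
    rw [hδ, div_mul_eq_mul_div, div_lt_iff₀ hc]
    nlinarith
  obtain ⟨C, hC1, -, hC3⟩ := exists_polar T hδ0
  have hlim : Tendsto (fun s : Finset β => ∑ k ∈ K,
      (∑ i ∈ s, ⟪C (b k), b i⟫_ℂ * ⟪b i, T (b k)⟫_ℂ).re) atTop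
      (𝓝 (∑ k ∈ K, (⟪C (b k), T (b k)⟫_ℂ).re)) := by
    refine tendsto_finsetSum _ fun k _ => ?_
    have h := b.hasSum_inner_mul_inner (C (b k)) (T (b k))
    exact (Complex.continuous_re.tendsto _).comp h
  have hbig : t < ∑ k ∈ K, (⟪C (b k), T (b k)⟫_ℂ).re := by
    have h1 : σ - δ * K.card ≤ ∑ k ∈ K, (⟪C (b k), T (b k)⟫_ℂ).re := by
      have h2 : σ - δ * K.card = ∑ k ∈ K, ((⟪b k, CFC.abs T (b k)⟫_ℂ).re - δ) := by
        rw [Finset.sum_sub_distrib, Finset.sum_const, nsmul_eq_mul, hσ]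
        ring
      rw [h2]
      refine Finset.sum_le_sum fun k _ => ?_
      have h3 := hC3 (b k)
      have h7 : ‖b k‖ = 1 := b.orthonormal.1 k
      rw [h7] at h3
      linarith
    linarith
  filter_upwards [hlim.eventually (lt_mem_nhds hbig), eventually_ge_atTop K] with s hs1 hs2
  refine lt_of_lt_of_le hs1 ?_
  obtain ⟨U, hU⟩ : ∃ U : Matrix s s ℂ, U = fun i k : s =>
      if (k : β) ∈ K then ⟪b i, C (b k)⟫_ℂ else 0 := ⟨_, rfl⟩
  have hcon : Con U := by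
    apply con_of_vec
    intro x
    obtain ⟨z, hz⟩ : ∃ z : H, z = ∑ k : s, (if (k : β) ∈ K then x k else 0) • b k := ⟨_, rfl⟩
    have h1 : ∀ i : s, (U *ᵥ x) i = ⟪b i, C z⟫_ℂ := by
      intro i
      rw [hz, map_sum, inner_sum, Matrix.mulVec, dotProduct]
      refine Finset.sum_congr rfl fun k _ => ?_
      rw [map_smul, inner_smul_right, hU]
      dsimp only
      split_ifs
      · ring
      · simp
    have h2 : ∑ i : s, ‖(U *ᵥ x) i‖ ^ 2 ≤ ‖C z‖ ^ 2 := by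
      simp only [h1]
      rw [Finset.sum_coe_sort s (fun i => ‖⟪b i, C z⟫_ℂ‖ ^ 2)]
      exact b.orthonormal.sum_inner_products_le _
    have h3 : ‖z‖ ^ 2 ≤ ∑ i, ‖x i‖ ^ 2 := by
      rw [hz, norm_sum_sq]
      refine Finset.sum_le_sum fun k _ => ?_
      split_ifs
      · exact le_rfl
      · simp
    have h4 := hC1 z
    have h5 : ‖C z‖ ^ 2 ≤ ‖z‖ ^ 2 := by
      apply pow_le_pow_left₀ (norm_nonneg _) h4
    linarith
  refine le_trans (le_of_eq ?_) (le_tn hcon (cmp b s T))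
  rw [rt_mul_eq]
  have h1 : ∀ k : s, ∑ i : s, (star (U i k) * cmp b s T i k).re =
      if (k : β) ∈ K then (∑ i ∈ s, ⟪C (b k), b i⟫_ℂ * ⟪b i, T (b k)⟫_ℂ).re else 0 := by
    intro k
    rw [hU]
    dsimp only
    split_ifs with hk
    · rw [Complex.re_sum, ← Finset.sum_coe_sort s]
      refine Finset.sum_congr rfl fun i _ => ?_
      rw [Complex.star_def, inner_conj_symm]
      rfl
    · simp
  simp only [h1]
  rw [Finset.sum_coe_sort s (fun k => if k ∈ K then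
    (∑ i ∈ s, ⟪C (b k), b i⟫_ℂ * ⟪b i, T (b k)⟫_ℂ).re else 0), ← Finset.sum_filter]
  have : s.filter (fun k => k ∈ K) = K := by
    ext k
    simp only [Finset.mem_filter, and_iff_right_iff_imp]
    exact fun h => hs2 h
  rw [this]

end

open Pool.Agent.H47.Grid (gridDist gridDist_nonneg gridDist_le le_gridDist)

/-- The distortion bound. -/
theorem op_grid (b : HilbertBasis β ℂ H) {n m : ℕ} (hn : 1 ≤ n) (hm : 1 ≤ m) {l D : ℝ}
    (hl : 0 < l) (f : (Fin n → Fin (m + 1)) → (H →L[ℂ] H))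
    (hlow : ∀ x y, ENNReal.ofReal (l * gridDist x y) ≤ traceNorm b (f x - f y))
    (hup : ∀ x y, traceNorm b (f x - f y) ≤ ENNReal.ofReal (D * l * gridDist x y)) :
    1 / 240 * min (m : ℝ) (Real.sqrt n) ≤ D := by
  classical
  have hD : 0 ≤ D := by
    obtain ⟨x, hx⟩ : ∃ x : Fin n → Fin (m + 1), x = fun _ => 0 := ⟨_, rfl⟩
    obtain ⟨y, hy⟩ : ∃ y : Fin n → Fin (m + 1), y = fun _ => Fin.last m := ⟨_, rfl⟩
    have h1 := (hlow x y).trans (hup x y)
    have h2 : 0 < gridDist x y := by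
      have := le_gridDist x y ⟨0, hn⟩
      refine lt_of_lt_of_le ?_ this
      rw [hx, hy]
      simp
      omega
    have h3 : 0 < l * gridDist x y := by positivity
    have h4 : 0 < D * l * gridDist x y := by
      by_contra h
      push Not at h
      rw [ENNReal.ofReal_of_nonpos h, nonpos_iff_eq_zero, ENNReal.ofReal_eq_zero] at h1
      linarith
    by_contra h
    push Not at h
    have h5 : D * l * gridDist x y = D * (l * gridDist x y) := by ring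
    rw [h5] at h4
    nlinarith
  have hev : ∀ᶠ s : Finset β in atTop, ∀ x y, l / 2 * gridDist x y ≤
      tn (cmp b s (f x - f y)) := by
    rw [eventually_all]
    intro x
    rw [eventually_all]
    intro y
    rcases (gridDist_nonneg x y).eq_or_lt with h | h
    · refine Eventually.of_forall fun s => ?_
      rw [← h, mul_zero]
      exact tn_nonneg _
    · have h1 : ENNReal.ofReal (l / 2 * gridDist x y) < traceNorm b (f x - f y) := by
        refine lt_of_lt_of_le ?_ (hlow x y)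
        rw [ENNReal.ofReal_lt_ofReal_iff (by positivity)]
        nlinarith
      filter_upwards [lt_cmp b _ h1] with s hs using hs.le
  obtain ⟨s, hs⟩ := hev.exists
  have hfin := matrix_grid hn hm (s := l / 2) (D := D * l) (by positivity) (by positivity)
    (fun x => cmp b s (f x))
    (by
      intro x y
      rw [← cmp_sub]
      exact hs x y)
    (by
      intro x y
      rw [← cmp_sub]
      have h1 := (cmp_le b s (f x - f y)).trans (hup x y)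
      have h2 := gridDist_nonneg x y
      rwa [ENNReal.ofReal_le_ofReal_iff (by positivity)] at h1)
  have h1 : l * (1 / 240 * min (m : ℝ) (Real.sqrt n)) ≤ l * D := by
    calc l * (1 / 240 * min (m : ℝ) (Real.sqrt n)) = l / 2 / 120 * min (m : ℝ) (Real.sqrt n) := by
          ring
      _ ≤ D * l := hfin
      _ = l * D := mul_comm _ _
  exact le_of_mul_le_mul_left h1 hl

end Pool.Agent.H47.S1
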