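import Pool.Agent.H47.S1.Mat

/-!
# The trace norm of complex matrices as a supremum over contractions
-/

open Matrix
open scoped ComplexOrder

namespace Pool.Agent.H47.S1

variable {ι : Type*} [Fintype ι] [DecidableEq ι]

/-- Contractive matrices. -/
def Con (U : Matrix ι ι ℂ) : Prop := (1 - Uᴴ * U).PosSemidef

theorem con_zero : Con (0 : Matrix ι ι ℂ) := by
  simpa [Con] using (Matrix.PosSemidef.one : (1 : Matrix ι ι ℂ).PosSemidef)

theorem con_of_isom {U : Matrix ι ι ℂ} (h : Uᴴ * U = 1) : Con U := by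
  rw [Con, h, sub_self]
  exact Matrix.PosSemidef.zero

theorem Con.conj {U : Matrix ι ι ℂ} (h : Con U) : Con Uᴴ := by
  have h1 := posSemidef_self_mul_conjTranspose (1 - U * Uᴴ)
  have h2 := Matrix.PosSemidef.mul_mul_conjTranspose_same h U
  have e : (1 - U * Uᴴ) * (1 - U * Uᴴ)ᴴ + U * (1 - Uᴴ * U) * Uᴴ = 1 - Uᴴᴴ * Uᴴ := by
    simp only [conjTranspose_sub, conjTranspose_one, conjTranspose_mul,
      conjTranspose_conjTranspose, Matrix.mul_sub, Matrix.sub_mul, Matrix.mul_one, Matrix.one_mul,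
      Matrix.mul_assoc]
    abel
  rw [Con, ← e]
  exact h1.add h2

theorem Con.neg {U : Matrix ι ι ℂ} (h : Con U) : Con (-U) := by
  simpa [Con] using h

theorem Con.mul {U V : Matrix ι ι ℂ} (hU : Con U) (hV : Con V) : Con (U * V) := by
  have h2 := Matrix.PosSemidef.conjTranspose_mul_mul_same hU V
  have e : (1 - Vᴴ * V) + Vᴴ * (1 - Uᴴ * U) * V = 1 - (U * V)ᴴ * (U * V) := by
    simp only [conjTranspose_mul, Matrix.mul_sub, Matrix.sub_mul, Matrix.mul_one,
      Matrix.mul_assoc]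
    abel
  rw [Con, ← e]
  exact hV.add h2

theorem Con.entry {U : Matrix ι ι ℂ} (h : Con U) (i j : ι) : ‖U i j‖ ≤ 1 := by
  have h1 := h.diag_nonneg (i := j)
  rw [Matrix.sub_apply, Matrix.one_apply_eq, Matrix.mul_apply] at h1
  have h2 : ∑ k, (Uᴴ j k * U k j) = ((∑ k, ‖U k j‖ ^ 2 : ℝ) : ℂ) := by
    push_cast
    apply Finset.sum_congr rfl
    intro k _
    rw [conjTranspose_apply, Complex.star_def, Complex.conj_mul']
  rw [h2] at h1
  have h3 : (∑ k, ‖U k j‖ ^ 2 : ℝ) ≤ 1 := by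
    have : (0 : ℂ) ≤ (((1 - ∑ k, ‖U k j‖ ^ 2 : ℝ)) : ℂ) := by
      push_cast
      push_cast at h1
      exact h1
    have := Complex.zero_le_real.mp this
    linarith
  have h4 : ‖U i j‖ ^ 2 ≤ ∑ k, ‖U k j‖ ^ 2 :=
    Finset.single_le_sum (f := fun k => ‖U k j‖ ^ 2) (fun k _ => by positivity)
      (Finset.mem_univ i)
  nlinarith [norm_nonneg (U i j)]

omit [DecidableEq ι] in
theorem rt_mul_eq (U A : Matrix ι ι ℂ) :
    rt (Uᴴ * A) = ∑ j, ∑ i, ((star (U i j)) * A i j).re := by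
  rw [rt, Matrix.trace, Complex.re_sum]
  apply Finset.sum_congr rfl
  intro j _
  rw [Matrix.diag_apply, Matrix.mul_apply, Complex.re_sum]
  rfl

theorem rt_le_entries {U : Matrix ι ι ℂ} (h : Con U) (A : Matrix ι ι ℂ) :
    rt (Uᴴ * A) ≤ ∑ j, ∑ i, ‖A i j‖ := by
  rw [rt_mul_eq]
  refine Finset.sum_le_sum fun j _ => Finset.sum_le_sum fun i _ => ?_
  calc ((star (U i j)) * A i j).re ≤ ‖(star (U i j)) * A i j‖ := Complex.re_le_norm _
    _ = ‖U i j‖ * ‖A i j‖ := by rw [norm_mul, norm_star]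
    _ ≤ 1 * ‖A i j‖ := by
        apply mul_le_mul_of_nonneg_right (h.entry i j) (norm_nonneg _)
    _ = ‖A i j‖ := one_mul _

/-- The trace norm. -/
noncomputable def tn (A : Matrix ι ι ℂ) : ℝ :=
  ⨆ U : {U : Matrix ι ι ℂ // Con U}, rt ((U : Matrix ι ι ℂ)ᴴ * A)

theorem tn_bdd (A : Matrix ι ι ℂ) :
    BddAbove (Set.range fun U : {U : Matrix ι ι ℂ // Con U} => rt ((U : Matrix ι ι ℂ)ᴴ * A)) := by
  refine ⟨∑ j, ∑ i, ‖A i j‖, ?_⟩
  rintro _ ⟨U, rfl⟩
  exact rt_le_entries U.2 A

theorem le_tn {U : Matrix ι ι ℂ} (h : Con U) (A : Matrix ι ι ℂ) : rt (Uᴴ * A) ≤ tn A :=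
  le_ciSup (tn_bdd A) ⟨U, h⟩

theorem tn_le {A : Matrix ι ι ℂ} {c : ℝ} (h : ∀ U, Con U → rt (Uᴴ * A) ≤ c) : tn A ≤ c := by
  have : Nonempty {U : Matrix ι ι ℂ // Con U} := ⟨⟨0, con_zero⟩⟩
  exact ciSup_le fun U => h U.1 U.2

theorem tn_le_entries (A : Matrix ι ι ℂ) : tn A ≤ ∑ j, ∑ i, ‖A i j‖ :=
  tn_le fun _ hU => rt_le_entries hU A

theorem tn_nonneg (A : Matrix ι ι ℂ) : 0 ≤ tn A := by
  have := le_tn con_zero A
  simpa [rt_zero] using this

theorem tn_zero : tn (0 : Matrix ι ι ℂ) = 0 := by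
  apply le_antisymm _ (tn_nonneg _)
  apply tn_le
  intro U _
  simp [rt_zero]

theorem tn_add_le (A B : Matrix ι ι ℂ) : tn (A + B) ≤ tn A + tn B := by
  apply tn_le
  intro U hU
  rw [Matrix.mul_add, rt_add]
  exact add_le_add (le_tn hU A) (le_tn hU B)

theorem tn_neg (A : Matrix ι ι ℂ) : tn (-A) = tn A := by
  have key : ∀ B : Matrix ι ι ℂ, tn (-B) ≤ tn B := by
    intro B
    apply tn_le
    intro U hU
    have := le_tn hU.neg B
    simpa using this
  apply le_antisymm (key A)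
  simpa using key (-A)

theorem tn_sub_comm (A B : Matrix ι ι ℂ) : tn (A - B) = tn (B - A) := by
  rw [← tn_neg, neg_sub]

theorem tn_sub_le (A B C : Matrix ι ι ℂ) : tn (A - C) ≤ tn (A - B) + tn (B - C) := by
  have := tn_add_le (A - B) (B - C)
  simpa using this

theorem tn_conj (A : Matrix ι ι ℂ) : tn Aᴴ = tn A := by
  have key : ∀ B : Matrix ι ι ℂ, tn Bᴴ ≤ tn B := by
    intro B
    apply tn_le
    intro U hU
    have := le_tn hU.conj B
    have e : rt (Uᴴ * Bᴴ) = rt (Uᴴᴴ * B) := by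
      rw [conjTranspose_conjTranspose, ← rt_conj (U * B), conjTranspose_mul, rt_mul_comm]
    rw [e]
    exact this
  apply le_antisymm (key A)
  simpa using key Aᴴ

theorem tn_smul {r : ℝ} (hr : 0 ≤ r) (A : Matrix ι ι ℂ) : tn ((r : ℂ) • A) = r * tn A := by
  rw [tn, tn, Real.mul_iSup_of_nonneg hr]
  congr 1
  funext U
  rw [Matrix.mul_smul, rt_smul]

theorem im_trace_le_tn (A : Matrix ι ι ℂ) : |(trace A).im| ≤ tn A := by
  rw [abs_le]
  constructor
  · have h : Con ((-Complex.I) • (1 : Matrix ι ι ℂ)) := by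
      apply con_of_isom
      simp [smul_smul]
    have := le_tn h A
    have e : rt (((-Complex.I) • (1 : Matrix ι ι ℂ))ᴴ * A) = -(trace A).im := by
      simp [rt]
    rw [e] at this
    linarith
  · have h : Con ((Complex.I) • (1 : Matrix ι ι ℂ)) := by
      apply con_of_isom
      simp [smul_smul]
    have := le_tn h A
    have e : rt (((Complex.I) • (1 : Matrix ι ι ℂ))ᴴ * A) = (trace A).im := by
      simp [rt]
    rw [e] at this
    linarith

theorem entry_le_tn (A : Matrix ι ι ℂ) (i j : ι) : ‖A i j‖ ≤ tn A := by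
  obtain ⟨c, hc, hcA⟩ : ∃ c : ℂ, ‖c‖ = 1 ∧ (star c * A i j).re = ‖A i j‖ := by
    by_cases h : A i j = 0
    · exact ⟨1, by simp, by simp [h]⟩
    · refine ⟨A i j / ‖A i j‖, ?_, ?_⟩
      · rw [norm_div, Complex.norm_real, norm_norm, div_self (norm_ne_zero_iff.mpr h)]
      · have hn : (‖A i j‖ : ℂ) ≠ 0 := by
          exact_mod_cast norm_ne_zero_iff.mpr h
        have : star (A i j / (‖A i j‖ : ℂ)) * A i j = (‖A i j‖ : ℂ) := by
          rw [star_div₀, Complex.star_def, Complex.conj_ofReal, div_mul_eq_mul_div,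
            Complex.conj_mul', pow_two, mul_div_assoc, div_self hn, mul_one]
        rw [this, Complex.ofReal_re]
  have h : Con (Matrix.single i j c) := by
    rw [Con, conjTranspose_single, single_mul_single_same]
    have e : (1 : Matrix ι ι ℂ) - Matrix.single j j (star c * c) =
        diagonal (fun k => if k = j then 0 else 1) := by
      have hcc : star c * c = 1 := by
        rw [Complex.star_def, Complex.conj_mul', hc]
        norm_num
      rw [hcc]
      ext k l
      simp only [Matrix.sub_apply, Matrix.one_apply, Matrix.single_apply, diagonal_apply]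
      by_cases hkl : k = l
      · subst hkl
        by_cases hkj : k = j
        · subst hkj; simp
        · simp [hkj, Ne.symm hkj]
      · simp only [hkl, if_false]
        by_cases hj : j = k ∧ j = l
        · exact absurd (hj.1.symm.trans hj.2) hkl
        · simp [hj]
    rw [e, posSemidef_diagonal_iff]
    intro k
    by_cases hk : k = j <;> simp [hk]
  have := le_tn h A
  have e : rt ((Matrix.single i j c)ᴴ * A) = ‖A i j‖ := by
    rw [← hcA, conjTranspose_single, rt, trace_single_mul]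
    simp
  rw [e] at this
  exact this

theorem norming {A : Matrix ι ι ℂ} (hA : A.IsHermitian) :
    ∃ W : Matrix ι ι ℂ, Wᴴ = W ∧ W * W = 1 ∧ tn A ≤ rt (W * A) := by
  obtain ⟨Q, d, h1, h2, h3⟩ := exists_spec hA
  obtain ⟨s, hs⟩ : ∃ s : ι → ℝ, s = fun i => if 0 ≤ d i then 1 else -1 := ⟨_, rfl⟩
  have hss : ∀ i, s i * s i = 1 := by
    intro i; rw [hs]; dsimp only; split_ifs <;> norm_num
  have hsd : ∀ i, s i * d i = |d i| := by
    intro i; rw [hs]; dsimp only; split_ifs with h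
    · rw [abs_of_nonneg h, one_mul]
    · rw [abs_of_neg (not_le.mp h)]; ring
  refine ⟨Q * diagonal (fun i => (s i : ℂ)) * Qᴴ, ?_, ?_, ?_⟩
  · rw [conjTranspose_mul, conjTranspose_mul, conjTranspose_conjTranspose,
      diagonal_conjTranspose, Matrix.mul_assoc]
    congr 3
    funext i
    simp
  · calc Q * diagonal (fun i => (s i : ℂ)) * Qᴴ * (Q * diagonal (fun i => (s i : ℂ)) * Qᴴ)
        = Q * (diagonal (fun i => (s i : ℂ)) * (Qᴴ * Q) * diagonal (fun i => (s i : ℂ))) * Qᴴ := by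
          simp only [Matrix.mul_assoc]
      _ = 1 := by
          rw [h2, Matrix.mul_one, diagonal_mul_diagonal]
          have : (fun i => (s i : ℂ) * (s i : ℂ)) = fun _ => 1 := by
            funext i
            rw [← Complex.ofReal_mul, hss, Complex.ofReal_one]
          rw [this, diagonal_one, Matrix.mul_one, h1]
  · have e1 : rt (Q * diagonal (fun i => (s i : ℂ)) * Qᴴ * A) = ∑ i, |d i| := by
      have : Q * diagonal (fun i => (s i : ℂ)) * Qᴴ * A =
          Q * diagonal (fun i => ((|d i| : ℝ) : ℂ)) * Qᴴ := by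
        rw [h3]
        calc Q * diagonal (fun i => (s i : ℂ)) * Qᴴ * (Q * diagonal (fun i => (d i : ℂ)) * Qᴴ)
            = Q * (diagonal (fun i => (s i : ℂ)) * (Qᴴ * Q) * diagonal (fun i => (d i : ℂ)))
                * Qᴴ := by
              simp only [Matrix.mul_assoc]
          _ = _ := by
              rw [h2, Matrix.mul_one, diagonal_mul_diagonal]
              congr 3
              funext i
              rw [← Complex.ofReal_mul, hsd]
      rw [this, Matrix.mul_assoc, rt_mul_comm, Matrix.mul_assoc, h2, Matrix.mul_one, rt,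
        trace_diagonal, Complex.re_sum]
      rfl
    rw [e1]
    apply tn_le
    intro U hU
    have hQ : Con Q := con_of_isom h2
    have hR : Con (Qᴴ * Uᴴ * Q) := (hQ.conj.mul hU.conj).mul hQ
    have e2 : rt (Uᴴ * A) = ∑ i, ((Qᴴ * Uᴴ * Q) i i * (d i : ℂ)).re := by
      have : rt (Uᴴ * A) = rt (Qᴴ * Uᴴ * Q * diagonal (fun i => (d i : ℂ))) := by
        rw [h3]
        calc rt (Uᴴ * (Q * diagonal (fun i => (d i : ℂ)) * Qᴴ))
            = rt ((Uᴴ * Q * diagonal (fun i => (d i : ℂ))) * Qᴴ) := by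
              simp only [Matrix.mul_assoc]
          _ = rt (Qᴴ * (Uᴴ * Q * diagonal (fun i => (d i : ℂ)))) := rt_mul_comm _ _
          _ = _ := by simp only [Matrix.mul_assoc]
      rw [this, rt, Matrix.trace, Complex.re_sum]
      apply Finset.sum_congr rfl
      intro i _
      rw [Matrix.diag_apply, Matrix.mul_diagonal]
    rw [e2]
    refine Finset.sum_le_sum fun i _ => ?_
    calc ((Qᴴ * Uᴴ * Q) i i * (d i : ℂ)).re ≤ ‖(Qᴴ * Uᴴ * Q) i i * (d i : ℂ)‖ :=
          Complex.re_le_norm _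
      _ = ‖(Qᴴ * Uᴴ * Q) i i‖ * |d i| := by rw [norm_mul, Complex.norm_real, Real.norm_eq_abs]
      _ ≤ 1 * |d i| := mul_le_mul_of_nonneg_right (hR.entry i i) (abs_nonneg _)
      _ = |d i| := one_mul _

variable {ε : ℝ} (hε : 0 < ε)

theorem con_Uo (A : Matrix ι ι ℂ) : Con (Uo hε A) := by
  rw [Con, ← Uo_Vo hε A, add_sub_cancel_left]
  exact posSemidef_conjTranspose_mul_self _

theorem con_Vo (A : Matrix ι ι ℂ) : Con (Vo hε A) := by
  rw [Con, ← Uo_Vo hε A, add_sub_cancel_right]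
  exact posSemidef_conjTranspose_mul_self _

theorem tn_le_Phi (A : Matrix ι ι ℂ) : tn A ≤ Phi hε A := by
  apply tn_le
  intro U hU
  have := dual hε U 0 A (by
    rw [Matrix.mul_zero, add_zero]
    exact hU)
  rw [rt_zero] at this
  linarith

theorem rt_le_card {V : Matrix ι ι ℂ} (hV : Con V) : rt V ≤ Fintype.card ι := by
  rw [rt, Matrix.trace, Complex.re_sum]
  calc ∑ i, ((diag V) i).re ≤ ∑ _i : ι, (1 : ℝ) := by
        refine Finset.sum_le_sum fun i _ => ?_
        exact (Complex.re_le_norm _).trans (hV.entry i i)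
    _ = Fintype.card ι := by simp

theorem Phi_le (A : Matrix ι ι ℂ) : Phi hε A ≤ tn A + ε * Fintype.card ι := by
  rw [Phi_eq]
  exact add_le_add (le_tn (con_Uo hε A) A)
    (mul_le_mul_of_nonneg_left (rt_le_card (con_Vo hε A)) hε.le)

theorem Phi_sub_le (A B : Matrix ι ι ℂ) : Phi hε A - Phi hε B ≤ tn (A - B) := by
  have h1 := dual hε (Uo hε A) (Vo hε A) B (by
    rw [Uo_Vo, sub_self]; exact Matrix.PosSemidef.zero)
  have h2 := le_tn (con_Uo hε A) (A - B)
  rw [Matrix.mul_sub, rt_sub] at h2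
  rw [Phi_eq hε A]
  linarith

theorem Phi_nonneg (A : Matrix ι ι ℂ) : 0 ≤ Phi hε A := (tn_nonneg A).trans (tn_le_Phi hε A)

end Pool.Agent.H47.S1
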